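import Pool.Agent.Prc24c.Sum

/-!
# The sharp inequality

`good_le`: `m μ(Gd) ≤ (K - A) (K - B) μ(P) + (m - 1) M(tt)`, given the discharging inequality `hD`.
-/

namespace Prc24

open Finset Classical

variable {P : Set Z2} {K A B : ℤ} {m : ℕ}

/-- the left hand side of the discharging inequality at a vertex -/
noncomputable def vcost (P : Set Z2) (K A B : ℤ) (m : ℕ) (v : Z2) : ℝ :=
  (1 / 2 : ℝ) * (ev P K A B m v + ev P K A B m (v.1 + K, v.2) + eh P K A B m v +
    eh P K A B m (v.1, v.2 + K)) - fa P K A B m v * (1 - (1 - kk P K A B m v) / ((m : ℝ) - 1))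

/-- the cost of the jumps at a window -/
noncomputable def jcost (P : Set Z2) (K A B : ℤ) (m : ℕ) (z : Z2) : ℝ :=
  if Gd P K A B m z then ((ju P K A B m z : ℝ) + jd P K A B m z) / (2 * ((m : ℝ) - 1)) else 0

lemma ev_bd : Prc92.Bd (ev P K A B m) := ⟨1, fun v => by unfold ev; split_ifs <;> simp⟩
lemma eh_bd : Prc92.Bd (eh P K A B m) := ⟨1, fun v => by unfold eh; split_ifs <;> simp⟩
lemma fa_bd : Prc92.Bd (fa P K A B m) := ⟨1, fun v => by unfold fa; split_ifs <;> simp⟩
lemma kk_bd : Prc92.Bd (kk P K A B m) := ⟨1, fun v => by unfold kk; split_ifs <;> simp⟩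

lemma j_bd : Prc92.Bd (fun z => if Gd P K A B m z then
    ((ju P K A B m z : ℝ) + jd P K A B m z) else 0) := by
  refine bd_ite (C := (m : ℝ) + m) (by positivity) fun z hz => ?_
  rw [abs_of_nonneg (by positivity)]
  have hc : (ct P K A B m z).card = m := hz
  have h1 : ju P K A B m z ≤ m := by
    refine le_trans (card_filter_le _ _) (le_of_eq hc)
  have h2 : jd P K A B m z ≤ m := by
    refine le_trans (card_filter_le _ _) (le_of_eq hc)
  have h1' : (ju P K A B m z : ℝ) ≤ m := by exact_mod_cast h1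
  have h2' : (jd P K A B m z : ℝ) ≤ m := by exact_mod_cast h2
  exact add_le_add h1' h2'

theorem good_le (μ : Prc92.Mean) (h : Prc P K A B m)
    (hD : μ.M (vcost P K A B m) + μ.M (jcost P K A B m) ≤ μ.M (tt P K A B m)) :
    (m : ℝ) * ind μ (Gd P K A B m) ≤ ((K : ℝ) - A) * (K - B) * ind μ (· ∈ P) +
      ((m : ℝ) - 1) * μ.M (tt P K A B m) := by
  have hm : (2 : ℝ) ≤ m := by exact_mod_cast h.m2
  have hm1 : (0 : ℝ) < (m : ℝ) - 1 := by linarith
  have hm0 : (m : ℝ) - 1 ≠ 0 := ne_of_gt hm1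
  -- shifts
  have sh1 : μ.M (fun v => ev P K A B m (v.1 + K, v.2)) = μ.M (ev P K A B m) := by
    have := μ.shift _ (ev_bd (P := P) (K := K) (A := A) (B := B) (m := m)) (K, 0)
    rw [← this]
    congr 1
    funext v
    congr 1
    exact Prod.ext rfl (by simp)
  have sh2 : μ.M (fun v => eh P K A B m (v.1, v.2 + K)) = μ.M (eh P K A B m) := by
    have := μ.shift _ (eh_bd (P := P) (K := K) (A := A) (B := B) (m := m)) (0, K)
    rw [← this]
    congr 1
    funext v
    congr 1
    exact Prod.ext (by simp) rfl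
  have sh3 : μ.M (fun v => eh P K A B m (v.1 - K, v.2)) = μ.M (eh P K A B m) := by
    have := μ.shift _ (eh_bd (P := P) (K := K) (A := A) (B := B) (m := m)) (-K, 0)
    rw [← this]
    congr 1
    funext v
    congr 1
    exact Prod.ext (by simp [sub_eq_add_neg]) (by simp)
  have sh4 : μ.M (fun v => ev P K A B m (v.1, v.2 - K)) = μ.M (ev P K A B m) := by
    have := μ.shift _ (ev_bd (P := P) (K := K) (A := A) (B := B) (m := m)) (0, -K)
    rw [← this]
    congr 1
    funext v
    congr 1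
    exact Prod.ext (by simp) (by simp [sub_eq_add_neg])
  have be := ev_bd (P := P) (K := K) (A := A) (B := B) (m := m)
  have bh := eh_bd (P := P) (K := K) (A := A) (B := B) (m := m)
  have bf := fa_bd (P := P) (K := K) (A := A) (B := B) (m := m)
  have bk := kk_bd (P := P) (K := K) (A := A) (B := B) (m := m)
  have bj := j_bd (P := P) (K := K) (A := A) (B := B) (m := m)
  have be1 : Prc92.Bd (fun v => ev P K A B m (v.1 + K, v.2)) := be.comp (fun v => (v.1 + K, v.2))
  have bh1 : Prc92.Bd (fun v => eh P K A B m (v.1, v.2 + K)) := bh.comp (fun v => (v.1, v.2 + K))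
  have be2 : Prc92.Bd (fun v => ev P K A B m (v.1, v.2 - K)) := be.comp (fun v => (v.1, v.2 - K))
  have bh2 : Prc92.Bd (fun v => eh P K A B m (v.1 - K, v.2)) := bh.comp (fun v => (v.1 - K, v.2))
  have bF : Prc92.Bd (fun v => fa P K A B m v * ((m : ℝ) - 2 + kk P K A B m v)) :=
    bf.mul ((Prc92.Bd.const _).add bk)
  -- the mean of the vertex cost
  have hv : ((m : ℝ) - 1) * μ.M (vcost P K A B m) = ((m : ℝ) - 1) * (μ.M (ev P K A B m) + μ.M (eh P K A B m)) -
      μ.M (fun v => fa P K A B m v * ((m : ℝ) - 2 + kk P K A B m v)) := by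
    have e1 : (fun v => ((m : ℝ) - 1) * vcost P K A B m v) =
        (fun v => (((m : ℝ) - 1) / 2) * (((ev P K A B m v + ev P K A B m (v.1 + K, v.2)) + eh P K A B m v) +
          eh P K A B m (v.1, v.2 + K)) + (-1) * (fa P K A B m v * ((m : ℝ) - 2 + kk P K A B m v))) := by
      funext v
      unfold vcost
      field_simp
      ring
    have bvc : Prc92.Bd (vcost P K A B m) := by
      have : vcost P K A B m = fun v => (1 / 2 : ℝ) * (((ev P K A B m v + ev P K A B m (v.1 + K, v.2)) +
          eh P K A B m v) + eh P K A B m (v.1, v.2 + K)) -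
          fa P K A B m v * (1 - (1 - kk P K A B m v) * (1 / ((m : ℝ) - 1))) := by
        funext v
        unfold vcost
        ring
      rw [this]
      exact ((((be.add be1).add bh).add bh1).smul _).sub
        (bf.mul ((Prc92.Bd.const 1).sub (((Prc92.Bd.const 1).sub bk).mul (Prc92.Bd.const _))))
    rw [← μ.smul _ _ bvc, e1, μ.add _ _ ((((be.add be1).add bh).add bh1).smul _) (bF.smul _),
      μ.smul _ _ (((be.add be1).add bh).add bh1), μ.smul _ _ bF, μ.add _ _ ((be.add be1).add bh) bh1,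
      μ.add _ _ (be.add be1) bh, μ.add _ _ be be1, sh1, sh2]
    ring
  have hj : ((m : ℝ) - 1) * μ.M (jcost P K A B m) = (1 / 2) * μ.M (fun z => if Gd P K A B m z then
      ((ju P K A B m z : ℝ) + jd P K A B m z) else 0) := by
    have e1 : jcost P K A B m = fun z => (1 / (2 * ((m : ℝ) - 1))) * (if Gd P K A B m z then
        ((ju P K A B m z : ℝ) + jd P K A B m z) else 0) := by
      funext z
      unfold jcost
      by_cases hz : Gd P K A B m z
      · simp only [hz, if_true]
        ring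
      · simp only [hz, if_false, mul_zero]
    rw [e1, μ.smul _ _ bj]
    field_simp
  -- the sum over windows
  have h0 := sum0 μ h
  have hb0 : Prc92.Bd (fun z => if Gd P K A B m z then ∑ p ∈ ct P K A B m z,
        ((cost P K A B m z p : ℝ) - 2 * (fc P K A B m z p : ℝ)) else 0) := by
    refine bd_ite (C := m * 8) (by positivity) fun z hz => ?_
    refine (abs_sum_le_sum_abs _ _).trans ?_
    have h1 : ∀ p ∈ ct P K A B m z, |(cost P K A B m z p : ℝ) - 2 * (fc P K A B m z p : ℝ)| ≤ 8 := by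
      intro p _
      have h1 : (cost P K A B m z p : ℝ) ≤ 6 := by exact_mod_cast cost_le6 z p
      have h2 : (fc P K A B m z p : ℝ) ≤ 1 := by exact_mod_cast fc_le1 z p
      have h3 : (0 : ℝ) ≤ (cost P K A B m z p : ℝ) := Nat.cast_nonneg _
      have h4 : (0 : ℝ) ≤ (fc P K A B m z p : ℝ) := Nat.cast_nonneg _
      rw [abs_le]
      constructor <;> linarith
    refine (sum_le_sum h1).trans ?_
    rw [sum_const, nsmul_eq_mul]
    have hz' : (ct P K A B m z).card = m := hz
    rw [hz']
  have bR : Prc92.Bd (fun z => ((m : ℝ) - 1) * (((eh P K A B m z + eh P K A B m (z.1 - K, z.2)) +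
      ev P K A B m z) + ev P K A B m (z.1, z.2 - K)) + (if Gd P K A B m z then
      ((ju P K A B m z : ℝ) + jd P K A B m z) else 0) + (-2) * (fa P K A B m z *
      ((m : ℝ) - 2 + kk P K A B m z))) :=
    (((((bh.add bh2).add be).add be2).smul _).add bj).add (bF.smul _)
  have hmono : μ.M (fun z => if Gd P K A B m z then ∑ p ∈ ct P K A B m z,
        ((cost P K A B m z p : ℝ) - 2 * (fc P K A B m z p : ℝ)) else 0) ≤
      ((m : ℝ) - 1) * (2 * μ.M (eh P K A B m) + 2 * μ.M (ev P K A B m)) +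
      μ.M (fun z => if Gd P K A B m z then ((ju P K A B m z : ℝ) + jd P K A B m z) else 0) -
      2 * μ.M (fun v => fa P K A B m v * ((m : ℝ) - 2 + kk P K A B m v)) := by
    refine (μ.mono _ _ hb0 bR fun z => ?_).trans (le_of_eq ?_)
    · have := pt_bound h z
      linarith
    · rw [μ.add _ _ (((((bh.add bh2).add be).add be2).smul _).add bj) (bF.smul _),
        μ.add _ _ ((((bh.add bh2).add be).add be2).smul _) bj, μ.smul _ _ (((bh.add bh2).add be).add be2),
        μ.smul _ _ bF, μ.add _ _ ((bh.add bh2).add be) be2, μ.add _ _ (bh.add bh2) be, μ.add _ _ bh bh2,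
        sh3, sh4]
      ring
  have hD' := mul_le_mul_of_nonneg_left hD hm1.le
  rw [mul_add, hv, hj] at hD'
  linarith

/-- the sharp inequality -/
theorem sharp_of (μ : Prc92.Mean) (h : Prc P K A B m)
    (hD : μ.M (vcost P K A B m) + μ.M (jcost P K A B m) ≤ μ.M (tt P K A B m))
    (hC : (A : ℝ) * B * μ.M (tt P K A B m) ≤
      ((K : ℝ) - A) * (K - B) * μ.M (fun z => ((f P K A B m z - (m + 1) : ℕ) : ℝ))) :
    (A : ℝ) * B * (m * ind μ (Gd P K A B m)) ≤ (((K : ℝ) - A) * (K - B)) *
      ((A : ℝ) * B * ind μ (· ∈ P) + (m - 1) * μ.M (fun z => ((f P K A B m z - (m + 1) : ℕ) : ℝ))) := by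
  have h1 := good_le μ h hD
  have hA : (0 : ℝ) < A := by exact_mod_cast h.A0
  have hB : (0 : ℝ) < B := by exact_mod_cast h.B0
  have hm : (2 : ℝ) ≤ m := by exact_mod_cast h.m2
  have hm1 : (0 : ℝ) ≤ (m : ℝ) - 1 := by linarith
  have h2 := mul_le_mul_of_nonneg_left h1 (mul_pos hA hB).le
  have h3 := mul_le_mul_of_nonneg_left hC hm1
  generalize ind μ (Gd P K A B m) = g at *
  generalize ind μ (· ∈ P) = n at *
  generalize μ.M (fun z => ((f P K A B m z - (m + 1) : ℕ) : ℝ)) = t at *
  generalize μ.M (tt P K A B m) = s at *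
  nlinarith [h2, h3]

theorem ident2 (μ : Prc92.Mean) (h : Prc P K A B m) :
    (m : ℝ) + 1 + μ.M (fun z => ((f P K A B m z - (m + 1) : ℕ) : ℝ)) =
      ((m : ℝ) * K + A) * (m * K + B) * ind μ (· ∈ P) + ind μ (Gd P K A B m) := by
  rw [← mean_f μ h]
  have hbf : Prc92.Bd (fun z => (f P K A B m z : ℝ)) :=
    Prc92.Bd.of_le _ (fun z => Nat.cast_nonneg _) (fun z => f_le_real z)
  have hbt : Prc92.Bd (fun z => ((f P K A B m z - (m + 1) : ℕ) : ℝ)) := by
    refine Prc92.Bd.of_le (((m * K + A).toNat * (m * K + B).toNat : ℕ) : ℝ) (fun z => Nat.cast_nonneg _)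
      (fun z => ?_)
    have h1 : ((f P K A B m z - (m + 1) : ℕ) : ℝ) ≤ (f P K A B m z : ℝ) := by
      exact_mod_cast Nat.sub_le _ _
    exact h1.trans (f_le_real z)
  have hc : μ.M (fun _ => (m : ℝ) + 1) = (m : ℝ) + 1 := μ.const _
  unfold ind
  rw [← μ.add _ _ hbf (bd_ind _)]
  nth_rewrite 1 [← hc]
  rw [← μ.add _ _ (Prc92.Bd.const _) hbt]
  congr 1
  funext z
  have h1 := le_f h z
  by_cases hz : Gd P K A B m z
  · have hz' : f P K A B m z = m := hz
    rw [if_pos hz, hz', Nat.sub_eq_zero_of_le (by omega)]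
    push_cast
    ring
  · have hz' : f P K A B m z ≠ m := hz
    rw [if_neg hz, Nat.cast_sub (by omega)]
    push_cast
    ring

end Prc24
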