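import Pool.Agent.Prc24c.Limit

/-!
# Equal integer parts `m = 1`
-/

namespace Prc24

open Finset Filter Topology Classical

/-- the discrete bound for `m = 1` -/
theorem disc_one (μ : Prc92.Mean) {P : Set Z2} {K A B : ℤ} (hA0 : 0 < A) (hAK : A < K) (hB0 : 0 < B)
    (hBK : B < K)
    (hor : ∀ x y : ℤ, ∃ p ∈ P, x ≤ p.1 ∧ p.1 < x + (K + A) ∧ y ≤ p.2 ∧ p.2 < y + K)
    (ver : ∀ x y : ℤ, ∃ p ∈ P, x ≤ p.1 ∧ p.1 < x + K ∧ y ≤ p.2 ∧ p.2 < y + (K + B)) :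
    1 ≤ (K : ℝ) ^ 2 * ind μ (· ∈ P) * (1 + (A : ℝ) / K * (B / K)) := by
  have hK : 0 < K := hA0.trans hAK
  set D1 : Finset Z2 := Ico (0 : ℤ) (K + A) ×ˢ Ico (0 : ℤ) (K + B) with hD1
  set D2 : Finset Z2 := Ico A K ×ˢ Ico B K with hD2
  have c1 : (D1.card : ℝ) = ((K : ℝ) + A) * (K + B) := by
    rw [hD1, card_product, Int.card_Ico, Int.card_Ico]
    push_cast
    have e1 : (((K + A - 0).toNat : ℕ) : ℤ) = K + A := by
      rw [Int.toNat_of_nonneg] <;> linarith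
    have e2 : (((K + B - 0).toNat : ℕ) : ℤ) = K + B := by
      rw [Int.toNat_of_nonneg] <;> linarith
    have e1' : (((K + A - 0).toNat : ℕ) : ℝ) = K + A := by exact_mod_cast e1
    have e2' : (((K + B - 0).toNat : ℕ) : ℝ) = K + B := by exact_mod_cast e2
    rw [e1', e2']
  have c2 : (D2.card : ℝ) = ((K : ℝ) - A) * (K - B) := by
    rw [hD2, card_product, Int.card_Ico, Int.card_Ico]
    push_cast
    have e1 : (((K - A).toNat : ℕ) : ℤ) = K - A := by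
      rw [Int.toNat_of_nonneg]; linarith
    have e2 : (((K - B).toNat : ℕ) : ℤ) = K - B := by
      rw [Int.toNat_of_nonneg]; linarith
    have e1' : (((K - A).toNat : ℕ) : ℝ) = K - A := by exact_mod_cast e1
    have e2' : (((K - B).toNat : ℕ) : ℝ) = K - B := by exact_mod_cast e2
    rw [e1', e2']
  have m1 := win_mean μ P D1
  have m2 := win_mean μ P D2
  have hb : ∀ D : Finset Z2, Prc92.Bd (fun z => ∑ d ∈ D, (if z + d ∈ P then (1 : ℝ) else 0)) := by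
    intro D
    refine Prc92.Bd.sum _ fun d _ => ⟨1, fun z => ?_⟩
    by_cases hz : z + d ∈ P <;> simp [hz]
  have key : (2 : ℝ) ≤ D1.card * ind μ (· ∈ P) + D2.card * ind μ (· ∈ P) := by
    rw [← m1, ← m2, ← μ.add _ _ (hb _) (hb _)]
    have h2 : μ.M (fun _ => (2 : ℝ)) = 2 := μ.const 2
    refine le_trans (le_of_eq h2.symm) (μ.mono _ _ (Prc92.Bd.const _) ((hb _).add (hb _)) fun z => ?_)
    have hnn : ∀ D : Finset Z2, ∀ d ∈ D, (0 : ℝ) ≤ (if z + d ∈ P then (1 : ℝ) else 0) := by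
      intro D d _
      split_ifs <;> norm_num
    -- the point in the lower left part
    obtain ⟨p, hp, p1, p2, p3, p4⟩ := ver z.1 z.2
    obtain ⟨q, hq, q1, q2, q3, q4⟩ := ver (z.1 + A) z.2
    obtain ⟨r, hr, r1, r2, r3, r4⟩ := hor z.1 z.2
    obtain ⟨s, hs, s1, s2, s3, s4⟩ := hor z.1 (z.2 + B)
    have mem1 : ∀ u : Z2, z.1 ≤ u.1 → u.1 < z.1 + (K + A) → z.2 ≤ u.2 → u.2 < z.2 + (K + B) →
        u - z ∈ D1 := by
      intro u u1 u2 u3 u4
      rw [hD1, mem_product, mem_Ico, mem_Ico]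
      simp only [Prod.fst_sub, Prod.snd_sub]
      exact ⟨⟨by omega, by omega⟩, by omega, by omega⟩
    by_cases hex : ∃ u v : Z2, u ∈ P ∧ v ∈ P ∧ u - z ∈ D1 ∧ v - z ∈ D1 ∧ u ≠ v
    · obtain ⟨u, v, hu, hv, hud, hvd, huv⟩ := hex
      have h3 : ∑ d ∈ ({u - z, v - z} : Finset Z2), (if z + d ∈ P then (1 : ℝ) else 0) ≤
          ∑ d ∈ D1, (if z + d ∈ P then (1 : ℝ) else 0) := by
        refine sum_le_sum_of_subset_of_nonneg ?_ fun d hd _ => hnn D1 d hd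
        intro d hd
        rw [mem_insert, mem_singleton] at hd
        rcases hd with rfl | rfl
        · exact hud
        · exact hvd
      have hne : u - z ≠ v - z := by
        intro hh
        exact huv (sub_left_injective hh)
      rw [sum_pair hne, add_sub_cancel, add_sub_cancel, if_pos hu, if_pos hv] at h3
      have h4 : (0 : ℝ) ≤ ∑ d ∈ D2, (if z + d ∈ P then (1 : ℝ) else 0) := sum_nonneg (hnn D2)
      linarith
    · push Not at hex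
      have hpm := mem1 p p1 (by linarith) p3 p4
      have hqm := mem1 q (by linarith) (by linarith) q3 q4
      have hrm := mem1 r r1 r2 r3 (by linarith)
      have hsm := mem1 s s1 s2 (by linarith) (by linarith)
      have e1 : p = q := hex p q hp hq hpm hqm
      have e2 : p = r := hex p r hp hr hpm hrm
      have e3 : p = s := hex p s hp hs hpm hsm
      have hp2 : p - z ∈ D2 := by
        rw [hD2, mem_product, mem_Ico, mem_Ico]
        simp only [Prod.fst_sub, Prod.snd_sub]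
        refine ⟨⟨?_, by linarith⟩, ?_, ?_⟩
        · rw [e1]; linarith
        · rw [e3]; linarith
        · rw [e2]; linarith
      have h3 := single_le_sum (hnn D1) hpm
      have h4 := single_le_sum (hnn D2) hp2
      rw [add_sub_cancel, if_pos hp] at h3 h4
      linarith
  rw [c1, c2] at key
  have hK0 : (K : ℝ) ≠ 0 := by
    have : (0 : ℝ) < K := by exact_mod_cast hK
    exact this.ne'
  have e : (K : ℝ) ^ 2 * ind μ (· ∈ P) * (1 + (A : ℝ) / K * (B / K)) =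
      ((K : ℝ) ^ 2 + A * B) * ind μ (· ∈ P) := by
    field_simp
  rw [e]
  linarith

theorem dens_one {w1 h1 w2 h2 ξ η : ℝ} (hw2 : 0 < w2) (hh1 : 0 < h1)
    (hξ0 : 0 < ξ) (hξ1 : ξ < 1) (hη0 : 0 < η) (hη1 : η < 1)
    (hw : w1 = (1 + ξ) * w2) (hh : h2 = (1 + η) * h1) {Q : Set (ℝ × ℝ)}
    (hQ1 : ∀ a b : ℝ, ∃ q ∈ Q, a ≤ q.1 ∧ q.1 ≤ a + w1 ∧ b ≤ q.2 ∧ q.2 ≤ b + h1)
    (hQ2 : ∀ a b : ℝ, ∃ q ∈ Q, a ≤ q.1 ∧ q.1 ≤ a + w2 ∧ b ≤ q.2 ∧ q.2 ≤ b + h2) :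
    ENNReal.ofReal (1 / ((1 + ξ * η) * w2 * h1))
      ≤ limsup (fun r : ℝ => ((Q ∩ Prc92.bx r).encard : ENNReal) / ENNReal.ofReal (4 * r ^ 2))
        atTop := by
  obtain ⟨N0, hN0⟩ := exists_nat_gt (1 / ξ + 1 / η)
  have p1 : (0 : ℝ) < 1 / ξ := by positivity
  have p2 : (0 : ℝ) < 1 / η := by positivity
  refine limit_arg hw2 hh1 (by positivity) N0 fun n hNn hn μ => ?_
  have hn0 : (0 : ℝ) < n := by exact_mod_cast hn
  have hNn' : (N0 : ℝ) ≤ n := by exact_mod_cast hNn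
  have hsx : 0 < w2 / n := by positivity
  have hsy : 0 < h1 / n := by positivity
  have a1 : (1 : ℝ) ≤ n * ξ := by
    have : 1 / ξ ≤ n := by linarith
    rwa [div_le_iff₀ hξ0] at this
  have a2 : (1 : ℝ) ≤ n * η := by
    have : 1 / η ≤ n := by linarith
    rwa [div_le_iff₀ hη0] at this
  have b1 : (1 : ℤ) ≤ ⌊(n : ℝ) * ξ⌋ := Int.le_floor.2 (by exact_mod_cast a1)
  have b2 : (1 : ℤ) ≤ ⌊(n : ℝ) * η⌋ := Int.le_floor.2 (by exact_mod_cast a2)
  have b3 : ((⌊(n : ℝ) * ξ⌋ : ℤ) : ℝ) ≤ n * ξ := Int.floor_le _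
  have b4 : ((⌊(n : ℝ) * η⌋ : ℤ) : ℝ) ≤ n * η := Int.floor_le _
  have b5 : ⌊(n : ℝ) * ξ⌋ < (n : ℤ) + 1 := by
    have : ((⌊(n : ℝ) * ξ⌋ : ℤ) : ℝ) < ((n : ℤ) + 1 : ℤ) := by
      push_cast
      nlinarith
    exact_mod_cast this
  have b6 : ⌊(n : ℝ) * η⌋ < (n : ℤ) + 1 := by
    have : ((⌊(n : ℝ) * η⌋ : ℤ) : ℝ) < ((n : ℤ) + 1 : ℤ) := by
      push_cast
      nlinarith
    exact_mod_cast this
  have e1 : ⌊w1 / (w2 / n)⌋ = n + ⌊(n : ℝ) * ξ⌋ := by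
    have : w1 / (w2 / n) = ((n : ℤ) : ℝ) + n * ξ := by
      rw [hw]; push_cast; field_simp
    rw [this, Int.floor_intCast_add]
  have e2 : ⌊h1 / (h1 / n)⌋ = n := by
    have : h1 / (h1 / n) = ((n : ℤ) : ℝ) := by push_cast; field_simp
    rw [this, Int.floor_intCast]
  have e3 : ⌊w2 / (w2 / n)⌋ = n := by
    have : w2 / (w2 / n) = ((n : ℤ) : ℝ) := by push_cast; field_simp
    rw [this, Int.floor_intCast]
  have e4 : ⌊h2 / (h1 / n)⌋ = n + ⌊(n : ℝ) * η⌋ := by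
    have : h2 / (h1 / n) = ((n : ℤ) : ℝ) + n * η := by
      rw [hh]; push_cast; field_simp
    rw [this, Int.floor_intCast_add]
  have g1 := PK_pt hsx hsy hQ1
  have g2 := PK_pt hsx hsy hQ2
  rw [e1, e2] at g1
  rw [e3, e4] at g2
  have hd := disc_one μ (P := Prc92.PK (w2 / n) (h1 / n) Q) (K := (n : ℤ) + 1) (A := ⌊(n : ℝ) * ξ⌋)
    (B := ⌊(n : ℝ) * η⌋) (by omega) b5 (by omega) b6
    (fun x y => by
      obtain ⟨p, hp, h1, h2, h3, h4⟩ := g1 x y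
      exact ⟨p, hp, h1, by omega, h3, by omega⟩)
    (fun x y => by
      obtain ⟨p, hp, h1, h2, h3, h4⟩ := g2 x y
      exact ⟨p, hp, h1, by omega, h3, by omega⟩)
  have hi0 := ind_nonneg' μ (· ∈ Prc92.PK (w2 / n) (h1 / n) Q)
  push_cast at hd
  refine hd.trans (mul_le_mul_of_nonneg_left ?_ (by positivity))
  have hn1 : (0 : ℝ) < (n : ℝ) + 1 := by linarith
  have f1 : ((⌊(n : ℝ) * ξ⌋ : ℤ) : ℝ) / ((n : ℝ) + 1) ≤ ξ := by
    rw [div_le_iff₀ hn1]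
    nlinarith
  have f2 : ((⌊(n : ℝ) * η⌋ : ℤ) : ℝ) / ((n : ℝ) + 1) ≤ η := by
    rw [div_le_iff₀ hn1]
    nlinarith
  have f3 : (0 : ℝ) ≤ ((⌊(n : ℝ) * η⌋ : ℤ) : ℝ) / ((n : ℝ) + 1) := by
    apply div_nonneg _ hn1.le
    have : (1 : ℝ) ≤ ((⌊(n : ℝ) * η⌋ : ℤ) : ℝ) := by exact_mod_cast b2
    linarith
  have := mul_le_mul f1 f2 f3 hξ0.le
  linarith

end Prc24
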