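import Pool.Agent.Prc92.Lat

/-!
# Sheared rectangular lattices
-/

namespace Prc24

open Finset Filter Topology Classical

/-- the lattice generated by `(W, 0)` and `(s, H)` -/
def Sh (W s H : ℝ) : Set (ℝ × ℝ) := {q | ∃ i j : ℤ, q = ((i : ℝ) * W + j * s, (j : ℝ) * H)}

/-- rectangles containing a fundamental rectangle -/
lemma sh_pierce1 {W s H w h : ℝ} (hW : 0 < W) (hH : 0 < H) (hw : W ≤ w) (hh : H ≤ h) (a b : ℝ) :
    ∃ q ∈ Sh W s H, a ≤ q.1 ∧ q.1 ≤ a + w ∧ b ≤ q.2 ∧ q.2 ≤ b + h := by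
  obtain ⟨h1, h2⟩ := Prc92.ceil_between (x := b) hH
  set j0 : ℤ := ⌈b / H⌉ with hj0
  obtain ⟨h3, h4⟩ := Prc92.ceil_between (x := a - j0 * s) hW
  set t : ℤ := ⌈(a - j0 * s) / W⌉ with ht
  refine ⟨((t : ℝ) * W + j0 * s, (j0 : ℝ) * H), ⟨t, j0, rfl⟩, ?_, ?_, ?_, ?_⟩
  · simp only
    linarith
  · simp only
    linarith
  · exact h1
  · simp only
    linarith

/-- rectangles meeting `n` consecutive rows, `n s = W` -/
lemma sh_pierce2 {W s H w h : ℝ} {n : ℕ} (hn : 0 < n) (hs : 0 < s) (hH : 0 < H) (hns : n * s = W)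
    (hw : s ≤ w) (hh : n * H ≤ h) (a b : ℝ) :
    ∃ q ∈ Sh W s H, a ≤ q.1 ∧ q.1 ≤ a + w ∧ b ≤ q.2 ∧ q.2 ≤ b + h := by
  have hn' : (0 : ℝ) < n := by exact_mod_cast hn
  have hk : (0 : ℝ) < n * H := by positivity
  obtain ⟨h1, h2⟩ := Prc92.ceil_between (x := a) hs
  set k : ℤ := ⌈a / s⌉ with hk0
  -- rows `j = k - n t`
  obtain ⟨h3, h4⟩ := Prc92.ceil_between (x := b - k * H) hk
  set t : ℤ := ⌈(b - k * H) / (n * H)⌉ with ht
  refine ⟨(((-t : ℤ) : ℝ) * W + ((k + n * t : ℤ) : ℝ) * s, ((k + n * t : ℤ) : ℝ) * H), ⟨-t, k + n * t, rfl⟩, ?_⟩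
  have e : ((-t : ℤ) : ℝ) * W + ((k + n * t : ℤ) : ℝ) * s = k * s := by
    rw [← hns]
    push_cast
    ring
  simp only
  rw [e]
  push_cast
  refine ⟨h1, by linarith, by linarith, by linarith⟩

lemma sh_count {W s H : ℝ} (hW : 0 < W) (hH : 0 < H) {r : ℝ} (hr : 0 < r) :
    ((Sh W s H ∩ Prc92.bx r).encard : ENNReal)
      ≤ ENNReal.ofReal ((2 * r / H + 1) * (2 * r / W + 1)) := by
  set T : Finset (ℝ × ℝ) := (Finset.Icc ⌈-r / H⌉ ⌊r / H⌋).biUnion (fun j =>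
    (Finset.Icc ⌈(-r - j * s) / W⌉ ⌊(r - j * s) / W⌋).image
      (fun i : ℤ => (((i : ℝ) * W + j * s, (j : ℝ) * H) : ℝ × ℝ))) with hT
  have hsub : Sh W s H ∩ Prc92.bx r ⊆ (T : Set (ℝ × ℝ)) := by
    rintro q ⟨⟨i, j, rfl⟩, hq⟩
    rw [Prc92.bx, Set.mem_prod, Set.mem_Icc, Set.mem_Icc] at hq
    obtain ⟨⟨h1, h2⟩, h3, h4⟩ := hq
    simp only at h1 h2 h3 h4
    rw [hT, Finset.mem_coe, Finset.mem_biUnion]
    refine ⟨j, ?_, ?_⟩
    · rw [Finset.mem_Icc, Int.ceil_le, Int.le_floor, div_le_iff₀ hH, le_div_iff₀ hH]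
      exact ⟨h3, h4⟩
    · rw [Finset.mem_image]
      refine ⟨i, ?_, rfl⟩
      rw [Finset.mem_Icc, Int.ceil_le, Int.le_floor, div_le_iff₀ hW, le_div_iff₀ hW]
      constructor
      · linarith
      · linarith
  have hcard : (T.card : ℝ) ≤ (2 * r / H + 1) * (2 * r / W + 1) := by
    have h1 : T.card ≤ ∑ j ∈ Finset.Icc ⌈-r / H⌉ ⌊r / H⌋,
        (Finset.Icc ⌈(-r - j * s) / W⌉ ⌊(r - j * s) / W⌋).card :=
      Finset.card_biUnion_le.trans (Finset.sum_le_sum fun i _ => Finset.card_image_le)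
    have h2 : (T.card : ℝ) ≤ ∑ j ∈ Finset.Icc ⌈-r / H⌉ ⌊r / H⌋,
        ((Finset.Icc ⌈(-r - j * s) / W⌉ ⌊(r - j * s) / W⌋).card : ℝ) := by
      exact_mod_cast h1
    refine h2.trans ?_
    have h3 : ∀ j ∈ Finset.Icc ⌈-r / H⌉ ⌊r / H⌋,
        ((Finset.Icc ⌈(-r - (j : ℝ) * s) / W⌉ ⌊(r - (j : ℝ) * s) / W⌋).card : ℝ)
        ≤ 2 * r / W + 1 := by
      intro j _
      have h4 : (-r - (j : ℝ) * s) / W ≤ (r - (j : ℝ) * s) / W :=
        div_le_div_of_nonneg_right (by linarith) hW.le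
      refine (Prc92.icc_card_le h4).trans (le_of_eq ?_)
      field_simp
      ring
    refine (Finset.sum_le_sum h3).trans ?_
    rw [Finset.sum_const, nsmul_eq_mul]
    refine mul_le_mul_of_nonneg_right ?_ (by positivity)
    have h5 : -r / H ≤ r / H := div_le_div_of_nonneg_right (by linarith) hH.le
    refine (Prc92.icc_card_le h5).trans (le_of_eq ?_)
    field_simp
    ring
  have h1 : (Sh W s H ∩ Prc92.bx r).encard ≤ (T.card : ℕ∞) := by
    rw [← Set.encard_coe_eq_coe_finsetCard]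
    exact Set.encard_le_encard hsub
  have h2 : ((Sh W s H ∩ Prc92.bx r).encard : ENNReal) ≤ ((T.card : ℕ∞) : ENNReal) :=
    ENat.toENNReal_mono h1
  refine h2.trans ?_
  rw [ENat.toENNReal_coe, ← ENNReal.ofReal_natCast]
  exact ENNReal.ofReal_le_ofReal hcard

/-- the density of the lattice -/
lemma sh_density {W s H : ℝ} (hW : 0 < W) (hH : 0 < H) :
    limsup (fun r : ℝ => ((Sh W s H ∩ Prc92.bx r).encard : ENNReal) / ENNReal.ofReal (4 * r ^ 2)) atTop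
      ≤ ENNReal.ofReal (1 / (W * H)) := by
  have h1 : Tendsto (fun r : ℝ => ENNReal.ofReal ((1 / H + 1 / (2 * r))
      * (1 / W + 1 / (2 * r)))) atTop (𝓝 (ENNReal.ofReal (1 / (W * H)))) := by
    refine ENNReal.tendsto_ofReal ?_
    have h2 : Tendsto (fun r : ℝ => 1 / (2 * r)) atTop (𝓝 0) :=
      Tendsto.div_atTop tendsto_const_nhds (Tendsto.const_mul_atTop two_pos tendsto_id)
    have h3 := (h2.const_add (1 / H)).mul (h2.const_add (1 / W))
    have e : (1 / H + 0) * (1 / W + 0) = 1 / (W * H) := by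
      field_simp
      ring
    rw [e] at h3
    exact h3
  rw [← h1.limsup_eq]
  refine limsup_le_limsup ?_
  filter_upwards [eventually_gt_atTop 0] with r hr
  have h4 : (0 : ℝ) < 4 * r ^ 2 := by positivity
  rw [ENNReal.div_le_iff_le_mul (Or.inl (by rw [Ne, ENNReal.ofReal_eq_zero]; linarith))
        (Or.inl ENNReal.ofReal_ne_top), ← ENNReal.ofReal_mul (by positivity)]
  refine (sh_count hW hH hr).trans (ENNReal.ofReal_le_ofReal (le_of_eq ?_))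
  field_simp
  ring

end Prc24
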