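import Pool.Agent.Prc24c.Cont2
import Pool.Agent.Prc24c.One
import Pool.Agent.Prc24c.Shear
import Pool.Agent.Prc24.Final

/-!
# All pairs of rectangles
-/

namespace Prc24

open Filter Classical

/-- equality of both densities from a common value -/
lemma eq_of {F : Set (ℝ × ℝ)} {D : ENNReal} (low : ∀ P : Set (ℝ × ℝ), Piercing F P → D ≤ density P)
    {Λ : Set (ℝ × ℝ)} (hΛ : IsLattice Λ) (hp : Piercing F Λ) (hd : density Λ ≤ D) :
    piT F = piL F := by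
  apply le_antisymm
  · exact le_iInf₂ fun P hP => iInf₂_le P hP.2
  · refine le_trans ?_ (le_iInf₂ fun P hP => low P hP)
    exact (iInf₂_le Λ ⟨hΛ, hp⟩).trans hd

lemma sh_lattice {W s H : ℝ} (hW : 0 < W) (hH : 0 < H) : IsLattice (Sh W s H) := by
  refine ⟨(W, 0), (s, H), ?_, ?_⟩
  · simp only
    have : W * H - 0 * s = W * H := by ring
    rw [this]
    positivity
  · ext x
    constructor
    · rintro ⟨i, j, rfl⟩
      refine ⟨i, j, ?_⟩
      ext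
      · simp
      · simp
    · rintro ⟨i, j, rfl⟩
      refine ⟨i, j, ?_⟩
      ext
      · simp
      · simp

lemma lt_lattice {m α β w h : ℝ} (hm : 0 < m) (hα : 0 ≤ α) (hβ : 0 ≤ β) (hw : 0 < w) (hh : 0 < h) :
    IsLattice (Lt m α β w h) := by
  refine ⟨(α / m * w, -h), (w, β * h), ?_, ?_⟩
  · have h1 : (0 : ℝ) ≤ α / m * w * (β * h) := by positivity
    have h2 : 0 < w * h := by positivity
    simp only
    nlinarith
  · ext x
    constructor
    · rintro ⟨i, j, rfl⟩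
      refine ⟨i, j, ?_⟩
      ext
      · simp
        ring
      · simp
        ring
    · rintro ⟨i, j, rfl⟩
      refine ⟨i, j, ?_⟩
      ext
      · simp
        ring
      · simp
        ring

lemma piercing_left {w1 h1 w2 h2 : ℝ} {P : Set (ℝ × ℝ)} (hP : Piercing {(w1, h1), (w2, h2)} P)
    (a b : ℝ) : ∃ q ∈ P, a ≤ q.1 ∧ q.1 ≤ a + w1 ∧ b ≤ q.2 ∧ q.2 ≤ b + h1 := by
  obtain ⟨q, hq, hq2⟩ := hP (w1, h1) (by simp) (a, b)
  rw [rect, Set.mem_prod, Set.mem_Icc, Set.mem_Icc] at hq2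
  exact ⟨q, hq, hq2.1.1, hq2.1.2, hq2.2.1, hq2.2.2⟩

lemma piercing_right {w1 h1 w2 h2 : ℝ} {P : Set (ℝ × ℝ)} (hP : Piercing {(w1, h1), (w2, h2)} P)
    (a b : ℝ) : ∃ q ∈ P, a ≤ q.1 ∧ q.1 ≤ a + w2 ∧ b ≤ q.2 ∧ q.2 ≤ b + h2 := by
  obtain ⟨q, hq, hq2⟩ := hP (w2, h2) (by simp) (a, b)
  rw [rect, Set.mem_prod, Set.mem_Icc, Set.mem_Icc] at hq2
  exact ⟨q, hq, hq2.1.1, hq2.1.2, hq2.2.1, hq2.2.2⟩

lemma piercing_mk {w1 h1 w2 h2 : ℝ} {P : Set (ℝ × ℝ)}
    (H1 : ∀ a b : ℝ, ∃ q ∈ P, a ≤ q.1 ∧ q.1 ≤ a + w1 ∧ b ≤ q.2 ∧ q.2 ≤ b + h1)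
    (H2 : ∀ a b : ℝ, ∃ q ∈ P, a ≤ q.1 ∧ q.1 ≤ a + w2 ∧ b ≤ q.2 ∧ q.2 ≤ b + h2) :
    Piercing {(w1, h1), (w2, h2)} P := by
  intro r hr a
  simp only [Set.mem_insert_iff, Set.mem_singleton_iff] at hr
  rcases hr with rfl | rfl
  · obtain ⟨q, hq, q1, q2, q3, q4⟩ := H1 a.1 a.2
    refine ⟨q, hq, ?_⟩
    rw [rect, Set.mem_prod, Set.mem_Icc, Set.mem_Icc]
    exact ⟨⟨q1, q2⟩, q3, q4⟩
  · obtain ⟨q, hq, q1, q2, q3, q4⟩ := H2 a.1 a.2
    refine ⟨q, hq, ?_⟩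
    rw [rect, Set.mem_prod, Set.mem_Icc, Set.mem_Icc]
    exact ⟨⟨q1, q2⟩, q3, q4⟩

/-! ### exchange of the coordinates -/

lemma density_swap (P : Set (ℝ × ℝ)) : density (Prod.swap '' P) = density P := by
  unfold density
  congr 1
  funext r
  congr 2
  have : Prod.swap '' P ∩ (Set.Icc (-r) r ×ˢ Set.Icc (-r) r) =
      Prod.swap '' (P ∩ (Set.Icc (-r) r ×ˢ Set.Icc (-r) r)) := by
    ext x
    constructor
    · rintro ⟨⟨p, hp, rfl⟩, hx⟩
      exact ⟨p, ⟨hp, hx.2, hx.1⟩, rfl⟩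
    · rintro ⟨p, ⟨hp, hx⟩, rfl⟩
      exact ⟨⟨p, hp, rfl⟩, hx.2, hx.1⟩
  rw [this, Prod.swap_injective.encard_image]

lemma swap_swap_image (P : Set (ℝ × ℝ)) : Prod.swap '' (Prod.swap '' P) = P := by
  rw [Set.image_image]
  simp

lemma piercing_swap {w1 h1 w2 h2 : ℝ} {P : Set (ℝ × ℝ)} (hP : Piercing {(w1, h1), (w2, h2)} P) :
    Piercing {(h1, w1), (h2, w2)} (Prod.swap '' P) := by
  refine piercing_mk (fun a b => ?_) (fun a b => ?_)
  · obtain ⟨q, hq, q1, q2, q3, q4⟩ := piercing_left hP b a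
    exact ⟨q.swap, ⟨q, hq, rfl⟩, q3, q4, q1, q2⟩
  · obtain ⟨q, hq, q1, q2, q3, q4⟩ := piercing_right hP b a
    exact ⟨q.swap, ⟨q, hq, rfl⟩, q3, q4, q1, q2⟩

lemma lattice_swap {Λ : Set (ℝ × ℝ)} (h : IsLattice Λ) : IsLattice (Prod.swap '' Λ) := by
  obtain ⟨u, v, huv, rfl⟩ := h
  refine ⟨u.swap, v.swap, ?_, ?_⟩
  · simp only [Prod.fst_swap, Prod.snd_swap]
    intro h0
    apply huv
    linarith
  · ext x
    constructor
    · rintro ⟨_, ⟨i, j, rfl⟩, rfl⟩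
      exact ⟨i, j, rfl⟩
    · rintro ⟨i, j, rfl⟩
      exact ⟨_, ⟨i, j, rfl⟩, rfl⟩

lemma piT_swap (w1 h1 w2 h2 : ℝ) : piT {(w1, h1), (w2, h2)} = piT {(h1, w1), (h2, w2)} := by
  apply le_antisymm
  · refine le_iInf₂ fun P hP => ?_
    rw [← density_swap P]
    exact iInf₂_le _ (piercing_swap hP)
  · refine le_iInf₂ fun P hP => ?_
    rw [← density_swap P]
    exact iInf₂_le _ (piercing_swap hP)

lemma piL_swap (w1 h1 w2 h2 : ℝ) : piL {(w1, h1), (w2, h2)} = piL {(h1, w1), (h2, w2)} := by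
  apply le_antisymm
  · refine le_iInf₂ fun P hP => ?_
    rw [← density_swap P]
    exact iInf₂_le _ ⟨lattice_swap hP.1, piercing_swap hP.2⟩
  · refine le_iInf₂ fun P hP => ?_
    rw [← density_swap P]
    exact iInf₂_le _ ⟨lattice_swap hP.1, piercing_swap hP.2⟩

/-! ### the cases -/

/-- the first rectangle is contained in the second one -/
lemma case_nested {w1 h1 w2 h2 : ℝ} (hw1 : 0 < w1) (hh1 : 0 < h1) (hw : w1 ≤ w2) (hh : h1 ≤ h2) :
    piT {(w1, h1), (w2, h2)} = piL {(w1, h1), (w2, h2)} := by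
  refine eq_of (D := ENNReal.ofReal (1 / (w1 * h1))) (fun P hP => single hw1 hh1 (piercing_left hP))
    (sh_lattice (s := 0) hw1 hh1) ?_ (sh_density hw1 hh1)
  exact piercing_mk (fun a b => sh_pierce1 hw1 hh1 le_rfl le_rfl a b)
    (fun a b => sh_pierce1 hw1 hh1 hw hh a b)

/-- different integer parts -/
lemma case_diff {w1 h1 w2 h2 : ℝ} {m : ℕ} (hw1 : 0 < w1) (hh1 : 0 < h1)
    (hw : w1 ≤ (m + 1) * w2) (hh : (m + 1) * h1 ≤ h2) :
    piT {(w1, h1), (w2, h2)} = piL {(w1, h1), (w2, h2)} := by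
  have hm : (0 : ℝ) < (m : ℝ) + 1 := by positivity
  refine eq_of (D := ENNReal.ofReal (1 / (w1 * h1))) (fun P hP => single hw1 hh1 (piercing_left hP))
    (sh_lattice (s := w1 / (m + 1)) hw1 hh1) ?_ (sh_density hw1 hh1)
  refine piercing_mk (fun a b => sh_pierce1 hw1 hh1 le_rfl le_rfl a b)
    (fun a b => sh_pierce2 (n := m + 1) (Nat.succ_pos m) (by positivity) hh1 ?_ ?_ ?_ a b)
  · push_cast
    field_simp
  · rw [div_le_iff₀ hm]
    linarith
  · push_cast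
    exact hh

/-- equal integer parts -/
lemma case_equal {w1 h1 w2 h2 ξ η : ℝ} {m : ℕ} (hm : 1 ≤ m) (hw2 : 0 < w2) (hh1 : 0 < h1)
    (hξ0 : 0 ≤ ξ) (hξ1 : ξ < 1) (hη0 : 0 ≤ η) (hη1 : η < 1)
    (hw : w1 = (m + ξ) * w2) (hh : h2 = (m + η) * h1) :
    piT {(w1, h1), (w2, h2)} = piL {(w1, h1), (w2, h2)} := by
  have hm1 : (1 : ℝ) ≤ m := by exact_mod_cast hm
  have hm0 : (0 : ℝ) < m := by linarith
  have hW : 0 < m * w2 := by positivity
  have hw1 : 0 < w1 := by rw [hw]; positivity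
  have hh2 : 0 < h2 := by rw [hh]; positivity
  have hSh : Piercing {(w1, h1), (w2, h2)} (Sh (m * w2) w2 h1) := by
    refine piercing_mk (fun a b => sh_pierce1 hW hh1 ?_ le_rfl a b)
      (fun a b => sh_pierce2 (n := m) hm hw2 hh1 rfl le_rfl ?_ a b)
    · rw [hw]
      nlinarith
    · rw [hh]
      nlinarith
  rcases eq_or_lt_of_le hξ0 with hξ | hξ
  · refine eq_of (D := ENNReal.ofReal (1 / (m * w2 * h1))) (fun P hP => ?_) (sh_lattice hW hh1) hSh
      (sh_density hW hh1)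
    have e : m * w2 * h1 = w1 * h1 := by rw [hw, ← hξ]; ring
    rw [e]
    exact single hw1 hh1 (piercing_left hP)
  rcases eq_or_lt_of_le hη0 with hη | hη
  · refine eq_of (D := ENNReal.ofReal (1 / (m * w2 * h1))) (fun P hP => ?_) (sh_lattice hW hh1) hSh
      (sh_density hW hh1)
    have e : m * w2 * h1 = w2 * h2 := by rw [hh, ← hη]; ring
    rw [e]
    exact single hw2 hh2 (piercing_right hP)
  have hα0 : (0 : ℝ) ≤ m - 1 + ξ := by linarith
  have hβ0 : (0 : ℝ) ≤ m - 1 + η := by linarith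
  have hLt : Piercing {(w1, h1), (w2, h2)} (Lt m (m - 1 + ξ) (m - 1 + η) w2 h1) := by
    refine piercing_mk (fun a b => ?_) (fun a b => ?_)
    · obtain ⟨q, hq, q1, q2, q3, q4⟩ := lat_pierce1 (m := m) (α := m - 1 + ξ) (β := m - 1 + η)
        hm hw2 hh1 (by linarith) (by linarith) (by linarith) (by linarith) a b
      refine ⟨q, hq, q1, q2.trans (le_of_eq ?_), q3, q4⟩
      rw [hw]
      ring
    · obtain ⟨q, hq, q1, q2, q3, q4⟩ := lat_pierce2 (m := m) (α := m - 1 + ξ) (β := m - 1 + η)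
        hm hw2 hh1 (by linarith) (by linarith) (by linarith) (by linarith) a b
      refine ⟨q, hq, q1, q2, q3, q4.trans (le_of_eq ?_)⟩
      rw [hh]
      ring
  have hLd : density (Lt m (m - 1 + ξ) (m - 1 + η) w2 h1) ≤
      ENNReal.ofReal (1 / ((1 + (m - 1 + ξ) * (m - 1 + η) / m) * w2 * h1)) :=
    lat_density hm hw2 hh1 hα0 hβ0
  have hLl := lt_lattice (w := w2) (h := h1) hm0 hα0 hβ0 hw2 hh1
  rcases Nat.lt_or_eq_of_le hm with hm2 | hm2
  · -- `m ≥ 2`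
    have low : ∀ P : Set (ℝ × ℝ), Piercing {(w1, h1), (w2, h2)} P →
        ENNReal.ofReal (1 / (DL m ξ η * w2 * h1)) ≤ density P := fun P hP =>
      dens_lower2 (by omega) hw2 hh1 hξ hξ1 hη hη1 hw hh (piercing_left hP) (piercing_right hP)
    rcases le_total (m : ℝ) (1 + (m - 1 + ξ) * (m - 1 + η) / m) with hc | hc
    · have e : DL m ξ η = 1 + (m - 1 + ξ) * (m - 1 + η) / m := max_eq_left hc
      rw [e] at low
      exact eq_of low hLl hLt hLd
    · have e : DL m ξ η = m := max_eq_right hc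
      rw [e] at low
      exact eq_of low (sh_lattice hW hh1) hSh (sh_density hW hh1)
  · -- `m = 1`
    subst hm2
    have low : ∀ P : Set (ℝ × ℝ), Piercing {(w1, h1), (w2, h2)} P →
        ENNReal.ofReal (1 / ((1 + ((1 : ℕ) - 1 + ξ) * ((1 : ℕ) - 1 + η) / (1 : ℕ)) * w2 * h1)) ≤
          density P := by
      intro P hP
      have e : (1 + (((1 : ℕ) : ℝ) - 1 + ξ) * (((1 : ℕ) : ℝ) - 1 + η) / ((1 : ℕ) : ℝ)) = 1 + ξ * η := by
        push_cast
        ring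
      rw [e]
      refine dens_one hw2 hh1 hξ hξ1 hη hη1 ?_ ?_ (piercing_left hP) (piercing_right hP)
      · rw [hw]
        push_cast
        ring
      · rw [hh]
        push_cast
        ring
    exact eq_of low hLl hLt hLd

/-- crossing rectangles -/
lemma case_cross {w1 h1 w2 h2 : ℝ} (hw1 : 0 < w1) (hh1 : 0 < h1) (hw2 : 0 < w2) (hh2 : 0 < h2)
    (hw : w2 ≤ w1) (hh : h1 ≤ h2) :
    piT {(w1, h1), (w2, h2)} = piL {(w1, h1), (w2, h2)} := by
  have a1 : 1 ≤ w1 / w2 := (one_le_div hw2).2 hw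
  have a2 : 1 ≤ h2 / h1 := (one_le_div hh1).2 hh
  obtain ⟨m, hm⟩ : ∃ m : ℕ, m = ⌊w1 / w2⌋₊ := ⟨_, rfl⟩
  obtain ⟨n, hn⟩ : ∃ n : ℕ, n = ⌊h2 / h1⌋₊ := ⟨_, rfl⟩
  have b1 : (m : ℝ) ≤ w1 / w2 := by rw [hm]; exact Nat.floor_le (by positivity)
  have b2 : w1 / w2 < m + 1 := by rw [hm]; exact Nat.lt_floor_add_one _
  have b3 : (n : ℝ) ≤ h2 / h1 := by rw [hn]; exact Nat.floor_le (by positivity)
  have b4 : h2 / h1 < n + 1 := by rw [hn]; exact Nat.lt_floor_add_one _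
  rcases lt_trichotomy m n with hmn | hmn | hmn
  · have c : ((m + 1 : ℕ) : ℝ) ≤ n := by exact_mod_cast hmn
    push_cast at c
    refine case_diff (m := m) hw1 hh1 ?_ ?_
    · rw [div_lt_iff₀ hw2] at b2
      exact b2.le
    · have := c.trans b3
      rwa [le_div_iff₀ hh1] at this
  · refine case_equal (m := m) (ξ := w1 / w2 - m) (η := h2 / h1 - m) ?_ hw2 hh1 (by linarith) (by linarith)
      ?_ ?_ ?_ ?_
    · rw [hm]
      exact Nat.le_floor (by exact_mod_cast a1)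
    · rw [hmn]
      linarith
    · rw [hmn]
      linarith
    · field_simp
      ring
    · field_simp
      ring
  · have c : ((n + 1 : ℕ) : ℝ) ≤ m := by exact_mod_cast hmn
    push_cast at c
    rw [piT_swap, piL_swap, Set.pair_comm]
    refine case_diff (m := n) hh2 hw2 ?_ ?_
    · rw [div_lt_iff₀ hh1] at b4
      exact b4.le
    · have := c.trans b1
      rwa [le_div_iff₀ hw2] at this

/-- all pairs -/
theorem all_pairs {w1 h1 w2 h2 : ℝ} (hw1 : 0 < w1) (hh1 : 0 < h1) (hw2 : 0 < w2) (hh2 : 0 < h2) :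
    piT {(w1, h1), (w2, h2)} = piL {(w1, h1), (w2, h2)} := by
  rcases le_total w1 w2 with hw | hw <;> rcases le_total h1 h2 with hh | hh
  · exact case_nested hw1 hh1 hw hh
  · rw [Set.pair_comm]
    exact case_cross hw2 hh2 hw1 hh1 hw hh
  · exact case_cross hw1 hh1 hw2 hh2 hw hh
  · rw [Set.pair_comm]
    exact case_nested hw2 hh2 hw hh

end Prc24
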