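import Pool.Agent.Prc92s.Defs

/-!
# The sharp inequality: interface

`ev v`, `eh v`: vertical, horizontal pair of good windows; `Fa v`: the four windows at the vertex `v` are good;
`kk v = 1` if `K1 v`; `ju z`, `jd z`: numbers of points of `ct z` with a jump upwards, downwards.
-/

namespace Prc24

open Finset Classical

section
variable (P : Set Z2) (K A B : ℤ) (m : ℕ)

/-- vertical pair of good windows -/
noncomputable def ev (v : Z2) : ℝ := if Gd P K A B m v ∧ Gd P K A B m (v.1, v.2 + K) then 1 else 0

/-- horizontal pair of good windows -/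
noncomputable def eh (v : Z2) : ℝ := if Gd P K A B m v ∧ Gd P K A B m (v.1 + K, v.2) then 1 else 0

/-- the four windows at the vertex `v` are good -/
def Fa (v : Z2) : Prop := Gd P K A B m v ∧ Gd P K A B m (v.1 + K, v.2) ∧ Gd P K A B m (v.1, v.2 + K) ∧
  Gd P K A B m (v.1 + K, v.2 + K)

/-- indicator of `Fa` -/
noncomputable def fa (v : Z2) : ℝ := if Fa P K A B m v then 1 else 0

/-- indicator of `K1` -/
noncomputable def kk (v : Z2) : ℝ := if K1 P K A B m v then 1 else 0

/-- the number of points of the window with a jump upwards -/
noncomputable def ju (z : Z2) : ℕ :=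
  ((ct P K A B m z).filter (fun p => jNE P K A B m z p ∨ jNW P K A B m z p)).card

/-- the number of points of the window with a jump downwards -/
noncomputable def jd (z : Z2) : ℕ :=
  ((ct P K A B m z).filter (fun p => jSE P K A B m z p ∨ jSW P K A B m z p)).card

/-- the point belongs to the four windows of the face at `z` -/
noncomputable def fc (z p : Z2) : ℕ :=
  if GI P K A B m (z.1 + K, z.2) p ∧ GI P K A B m (z.1, z.2 + K) p ∧ GI P K A B m (z.1 + K, z.2 + K) p
  then 1 else 0

end

end Prc24
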