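import Pool.Agent.Prc24.Comb
import Pool.Agent.Prc24c.Defs

/-!
# The number of good positions of a point, with faces

`comb2`: as `comb`, but the windows `s` of `S p u` such that the windows right, above and right above also
contain the point are counted: consecutive rows with common columns have one more common column than faces.
-/

namespace Prc24

open Finset Classical

variable {P : Set Z2} {K A B : ℤ} {m : ℕ}

/-- a possible jump in the direction `e` -/
private def Up2 (T : Finset (ℤ × ℤ)) (e : ℤ) (s : ℤ × ℤ) : Prop :=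
  ∃ d : ℤ, (d = 1 ∨ d = -1) ∧ (s.1 + d, s.2) ∉ T ∧ (s.1, s.2 + e) ∉ T ∧
    ∃ t ∈ T, 0 < d * (t.1 - s.1) ∧ 0 < e * (t.2 - s.2)

private lemma rowcount2 (T : Finset (ℤ × ℤ)) (e : ℤ) (he : e = 1 ∨ e = -1)
    (hrow : ∀ i k j l : ℤ, (i, j) ∈ T → (k, j) ∈ T → i ≤ l → l ≤ k → (l, j) ∈ T) :
    T.card ≤ (T.image Prod.snd).card + (T.filter (fun s => (s.1 + e, s.2) ∈ T)).card := by
  have h0 := Finset.card_filter_add_card_filter_not (s := T) (fun s => (s.1 + e, s.2) ∈ T)
  have h1 : (T.filter (fun s => ¬ (s.1 + e, s.2) ∈ T)).card ≤ (T.image Prod.snd).card := by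
    apply Finset.card_le_card_of_injOn Prod.snd
    · intro s hs
      have hs' := (mem_filter.1 (Finset.mem_coe.1 hs)).1
      exact Finset.mem_coe.2 (mem_image_of_mem _ hs')
    · have key : ∀ s t : ℤ × ℤ, s ∈ T → t ∈ T → (s.1 + e, s.2) ∉ T → (t.1 + e, t.2) ∉ T →
          s.2 = t.2 → ¬ s.1 < t.1 := by
        intro s t hs ht hs' ht' hst hlt
        rcases he with rfl | rfl
        · exact hs' (hrow s.1 t.1 s.2 (s.1 + 1) hs (by rw [hst]; exact ht) (by omega) (by omega))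
        · exact ht' (hrow s.1 t.1 t.2 (t.1 + -1) (by rw [← hst]; exact hs) ht (by omega) (by omega))
      intro s hs t ht hst
      have hs1 := mem_filter.1 (Finset.mem_coe.1 hs)
      have ht1 := mem_filter.1 (Finset.mem_coe.1 ht)
      have a := key s t hs1.1 ht1.1 hs1.2 ht1.2 hst
      have b := key t s ht1.1 hs1.1 ht1.2 hs1.2 hst.symm
      exact Prod.ext (by omega) hst
  omega

private lemma rowjump2 (T : Finset (ℤ × ℤ)) (e : ℤ) (he : e = 1 ∨ e = -1)
    (hrow : ∀ i k j l : ℤ, (i, j) ∈ T → (k, j) ∈ T → i ≤ l → l ≤ k → (l, j) ∈ T)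
    (hcol : ∀ i k j l : ℤ, (j, i) ∈ T → (j, k) ∈ T → i ≤ l → l ≤ k → (j, l) ∈ T) :
    (T.image Prod.snd).card +
      (T.filter (fun s => (s.1, s.2 + e) ∈ T ∧ (s.1 + -1, s.2) ∈ T ∧ (s.1 + -1, s.2 + e) ∈ T)).card ≤
      1 + (T.filter (fun s => (s.1, s.2 + e) ∈ T ∨ Up2 T e s)).card := by
  set F : ℤ × ℤ → Prop := fun s => (s.1, s.2 + e) ∈ T ∧ (s.1 + -1, s.2) ∈ T ∧ (s.1 + -1, s.2 + e) ∈ T
    with hF
  have hsplit : (T.filter (fun s => (s.1, s.2 + e) ∈ T ∨ Up2 T e s)).card =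
      (T.filter F).card + (T.filter (fun s => ((s.1, s.2 + e) ∈ T ∨ Up2 T e s) ∧ ¬ F s)).card := by
    rw [← Finset.card_filter_add_card_filter_not (s := T.filter (fun s => (s.1, s.2 + e) ∈ T ∨ Up2 T e s)) F,
      filter_filter, filter_filter]
    congr 2
    apply filter_congr
    intro s _
    constructor
    · intro hh
      exact hh.2
    · intro hh
      exact ⟨Or.inl hh.1, hh⟩
  suffices hmain : (T.image Prod.snd).card ≤
      1 + (T.filter (fun s => ((s.1, s.2 + e) ∈ T ∨ Up2 T e s) ∧ ¬ F s)).card by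
    rw [hsplit]
    change (T.image Prod.snd).card + (T.filter F).card ≤ _
    omega
  rcases (T.image Prod.snd).eq_empty_or_nonempty with h0 | h0
  · rw [h0]; simp
  obtain ⟨j0, hj0, hmax⟩ := (T.image Prod.snd).exists_max_image (fun j => e * j) h0
  have hsub : (T.image Prod.snd).erase j0 ⊆
      (T.filter (fun s => ((s.1, s.2 + e) ∈ T ∨ Up2 T e s) ∧ ¬ F s)).image Prod.snd := by
    intro j hj
    rw [mem_erase] at hj
    obtain ⟨hjj, hj⟩ := hj
    -- the next row in the direction e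
    have hne : ((T.image Prod.snd).filter (fun k => e * j < e * k)).Nonempty := by
      refine ⟨j0, mem_filter.2 ⟨hj0, ?_⟩⟩
      have := hmax j hj
      rcases he with rfl | rfl <;> omega
    obtain ⟨j1, hj1, hmin⟩ := ((T.image Prod.snd).filter (fun k => e * j < e * k)).exists_min_image
      (fun j => e * j) hne
    rw [mem_filter] at hj1
    obtain ⟨hj1, hlt⟩ := hj1
    have hstep : ∀ a : ℤ, (a, j + e) ∈ T → j1 = j + e := by
      intro a ha
      have h1 : j + e ∈ (T.image Prod.snd).filter (fun k => e * j < e * k) := by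
        refine mem_filter.2 ⟨mem_image.2 ⟨(a, j + e), ha, rfl⟩, ?_⟩
        rcases he with rfl | rfl <;> omega
      have := hmin _ h1
      rcases he with rfl | rfl <;> omega
    by_cases hc : ∃ i, (i, j) ∈ T ∧ (i, j1) ∈ T
    · obtain ⟨i, hi, hi1⟩ := hc
      have hiv : (i, j + e) ∈ T := by
        rcases he with rfl | rfl
        · exact hcol j j1 i (j + 1) hi hi1 (by omega) (by omega)
        · exact hcol j1 j i (j + -1) hi1 hi (by omega) (by omega)
      have hne2 : (T.filter (fun s => s.2 = j ∧ (s.1, s.2 + e) ∈ T)).Nonempty :=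
        ⟨(i, j), mem_filter.2 ⟨hi, rfl, hiv⟩⟩
      obtain ⟨s, hs, hsmin⟩ := (T.filter (fun s => s.2 = j ∧ (s.1, s.2 + e) ∈ T)).exists_min_image
        Prod.fst hne2
      rw [mem_filter] at hs
      obtain ⟨hsT, hsj, hsv⟩ := hs
      refine mem_image.2 ⟨s, mem_filter.2 ⟨hsT, Or.inl hsv, ?_⟩, hsj⟩
      rintro ⟨-, f1, f2⟩
      have := hsmin (s.1 + -1, s.2) (mem_filter.2 ⟨f1, hsj, f2⟩)
      simp only at this
      omega
    · push Not at hc
      obtain ⟨sa, hsa, hsa2⟩ := mem_image.1 hj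
      obtain ⟨sb, hsb, hsb2⟩ := mem_image.1 hj1
      have hab : sa.1 ≠ sb.1 := by
        intro hh
        apply hc sa.1
        · rw [← hsa2]; exact hsa
        · rw [hh, ← hsb2]; exact hsb
      obtain ⟨d, hd, hdab⟩ : ∃ d : ℤ, (d = 1 ∨ d = -1) ∧ 0 < d * (sb.1 - sa.1) := by
        rcases lt_or_gt_of_ne hab with hh | hh
        · exact ⟨1, Or.inl rfl, by omega⟩
        · exact ⟨-1, Or.inr rfl, by omega⟩
      have hne2 : (T.filter (fun s => s.2 = j)).Nonempty := ⟨sa, mem_filter.2 ⟨hsa, hsa2⟩⟩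
      obtain ⟨s, hs, hsmax⟩ := (T.filter (fun s => s.2 = j)).exists_max_image
        (fun s => d * s.1) hne2
      rw [mem_filter] at hs
      obtain ⟨hsT, hsj⟩ := hs
      have hsa3 := hsmax sa (mem_filter.2 ⟨hsa, hsa2⟩)
      have hs' : (s.1, j) ∈ T := by rw [← hsj]; exact hsT
      have hsa' : (sa.1, j) ∈ T := by rw [← hsa2]; exact hsa
      have hsb' : (sb.1, j1) ∈ T := by rw [← hsb2]; exact hsb
      have hpos : 0 < d * (sb.1 - s.1) := by
        by_contra hcon
        refine hc sb.1 ?_ hsb'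
        rcases hd with rfl | rfl
        · exact hrow sa.1 s.1 j sb.1 hsa' hs' (by omega) (by omega)
        · exact hrow s.1 sa.1 j sb.1 hs' hsa' (by omega) (by omega)
      have hnv : (s.1, s.2 + e) ∉ T := by
        intro hin
        rw [hsj] at hin
        have h2 := hstep _ hin
        exact hc s.1 hs' (by rw [h2]; exact hin)
      refine mem_image.2 ⟨s, mem_filter.2 ⟨hsT, Or.inr ?_, fun hf => hnv hf.1⟩, hsj⟩
      refine ⟨d, hd, ?_, hnv, sb, hsb, hpos, ?_⟩
      · intro hin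
        have := hsmax (s.1 + d, s.2) (mem_filter.2 ⟨hin, hsj⟩)
        rcases hd with rfl | rfl <;> simp only at this <;> omega
      · rw [hsj, hsb2]
        rcases he with rfl | rfl <;> omega
  have h1 := Finset.card_le_card hsub
  have h2 := h1.trans Finset.card_image_le
  rw [card_erase_of_mem hj0] at h2
  omega

private lemma pure_comb2 (T : Finset (ℤ × ℤ))
    (hrow : ∀ i k j l : ℤ, (i, j) ∈ T → (k, j) ∈ T → i ≤ l → l ≤ k → (l, j) ∈ T)
    (hcol : ∀ i k j l : ℤ, (j, i) ∈ T → (j, k) ∈ T → i ≤ l → l ≤ k → (j, l) ∈ T) :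
    2 * T.card + 2 * ∑ s ∈ T, (if (s.1 + -1, s.2) ∈ T ∧ (s.1, s.2 + -1) ∈ T ∧
      (s.1 + -1, s.2 + -1) ∈ T then 1 else 0) ≤ 2 + ∑ s ∈ T, ((if (s.1 + -1, s.2) ∈ T then 1 else 0) +
      (if (s.1 + 1, s.2) ∈ T then 1 else 0) +
      (if (s.1, s.2 + -1) ∈ T ∨ Up2 T (-1) s then 1 else 0) +
      (if (s.1, s.2 + 1) ∈ T ∨ Up2 T 1 s then 1 else 0)) := by
  have a1 := rowcount2 T (-1) (Or.inr rfl) hrow
  have a2 := rowcount2 T 1 (Or.inl rfl) hrow
  have a3 := rowjump2 T (-1) (Or.inr rfl) hrow hcol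
  have a4 := rowjump2 T 1 (Or.inl rfl) hrow hcol
  have e3 : (T.filter (fun s => (s.1, s.2 + -1) ∈ T ∧ (s.1 + -1, s.2) ∈ T ∧
      (s.1 + -1, s.2 + -1) ∈ T)).card = (T.filter (fun s => (s.1 + -1, s.2) ∈ T ∧ (s.1, s.2 + -1) ∈ T ∧
      (s.1 + -1, s.2 + -1) ∈ T)).card := by
    congr 1
    apply filter_congr
    intro s _
    tauto
  have e4 : (T.filter (fun s => (s.1 + -1, s.2) ∈ T ∧ (s.1, s.2 + -1) ∈ T ∧
      (s.1 + -1, s.2 + -1) ∈ T)).card ≤ (T.filter (fun s => (s.1, s.2 + 1) ∈ T ∧ (s.1 + -1, s.2) ∈ T ∧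
      (s.1 + -1, s.2 + 1) ∈ T)).card := by
    apply Finset.card_le_card_of_injOn (fun s => (s.1, s.2 + -1))
    · intro s hs
      obtain ⟨h1, h2, h3, h4⟩ := mem_filter.1 (Finset.mem_coe.1 hs)
      have e : s.2 + -1 + 1 = s.2 := by ring
      refine Finset.mem_coe.2 (mem_filter.2 ⟨h3, ?_, h4, ?_⟩)
      · simp only
        rw [e]
        exact h1
      · simp only
        rw [e]
        exact h2
    · intro s _ t _ hst
      simp only [Prod.mk.injEq] at hst
      exact Prod.ext hst.1 (by omega)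
  simp only [sum_add_distrib, ← card_filter]
  omega

private lemma ife2 {Q R : Prop} [Decidable Q] [Decidable R] (hQR : Q → R) :
    (if Q then 1 else 0 : ℕ) ≤ (if R then 1 else 0) := by
  by_cases hQ : Q
  · simp [hQ, hQR hQ]
  · simp [hQ]

private lemma if22 {Q R R' : Prop} [Decidable Q] [Decidable R] [Decidable R'] (hQR : Q → R ∨ R') :
    (if Q then 1 else 0 : ℕ) ≤ (if R then 1 else 0) + (if R' then 1 else 0) := by
  by_cases hQ : Q
  · rcases hQR hQ with h1 | h1 <;> simp [hQ, h1]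
  · simp [hQ]

/-- the window with integer position -/
private def ww2 (K : ℤ) (p u : Z2) (t : ℤ × ℤ) : Z2 :=
  (p.1 - (t.1 + 1) * K + u.1, p.2 - (t.2 + 1) * K + u.2)

theorem comb2 (h : Prc P K A B m) {p u : Z2} (hp : p ∈ P) (hu : u ∈ UU K A B) :
    2 * (S P K A B m p u).card + 2 * ∑ s ∈ S P K A B m p u, fc P K A B m (zz K p u s) p ≤
      2 + ∑ s ∈ S P K A B m p u, cost P K A B m (zz K p u s) p := by
  set c : ℕ × ℕ → ℤ × ℤ := fun s => ((s.1 : ℤ), (s.2 : ℤ)) with hcdef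
  have hcinj : Function.Injective c := by
    intro s t hst
    simp only [hcdef, Prod.mk.injEq, Nat.cast_inj] at hst
    exact Prod.ext hst.1 hst.2
  set T : Finset (ℤ × ℤ) := (S P K A B m p u).image c with hT
  have hcard : T.card = (S P K A B m p u).card := card_image_of_injective _ hcinj
  have hsum : ∑ t ∈ T, cost P K A B m (ww2 K p u t) p =
      ∑ s ∈ S P K A B m p u, cost P K A B m (zz K p u s) p := by
    rw [hT, sum_image (fun a _ b _ hab => hcinj hab)]
    rfl
  have hmem : ∀ t : ℤ × ℤ, t ∈ T ↔ (0 ≤ t.1 ∧ t.1 < m) ∧ (0 ≤ t.2 ∧ t.2 < m) ∧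
      Gd P K A B m (ww2 K p u t) := by
    intro t
    rw [hT, mem_image]
    constructor
    · rintro ⟨s, hs, rfl⟩
      simp only [S, mem_filter, mem_product, mem_range] at hs
      refine ⟨⟨by simp [hcdef], by simp only [hcdef]; exact_mod_cast hs.1.1⟩,
        ⟨by simp [hcdef], by simp only [hcdef]; exact_mod_cast hs.1.2⟩, hs.2⟩
    · rintro ⟨⟨h1, h2⟩, ⟨h3, h4⟩, h5⟩
      refine ⟨(t.1.toNat, t.2.toNat), ?_, ?_⟩
      · simp only [S, mem_filter, mem_product, mem_range]
        refine ⟨⟨by omega, by omega⟩, ?_⟩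
        have : zz K p u (t.1.toNat, t.2.toNat) = ww2 K p u t := by
          simp only [zz, ww2, Int.toNat_of_nonneg h1, Int.toNat_of_nonneg h3]
        rw [this]; exact h5
      · simp only [hcdef]
        exact Prod.ext (Int.toNat_of_nonneg h1) (Int.toNat_of_nonneg h3)
  have hGI : ∀ t : ℤ × ℤ, t ∈ T → GI P K A B m (ww2 K p u t) p := by
    intro t ht
    obtain ⟨s, hs, rfl⟩ := mem_image.1 (hT ▸ ht)
    simp only [S, mem_filter, mem_product, mem_range] at hs
    exact ⟨hs.2, mem_zz h hp hu hs.1.1 hs.1.2⟩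
  have hrow : ∀ i k j l : ℤ, (i, j) ∈ T → (k, j) ∈ T → i ≤ l → l ≤ k → (l, j) ∈ T := by
    intro i k j l hi hk hil hlk
    have gi := hGI _ hi
    have gk := hGI _ hk
    rw [hmem] at hi hk ⊢
    obtain ⟨⟨i1, i2⟩, ⟨i3, i4⟩, -⟩ := hi
    obtain ⟨⟨k1, k2⟩, -, -⟩ := hk
    simp only at i1 i2 i3 i4 k1 k2
    refine ⟨⟨by simp only; omega, by simp only; omega⟩, ⟨i3, i4⟩, ?_⟩
    have e1 : ((k - i).toNat : ℤ) = k - i := Int.toNat_of_nonneg (by omega)
    have e2 : ((k - l).toNat : ℤ) = k - l := Int.toNat_of_nonneg (by omega)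
    have hx : ∀ a : ℤ, ((ww2 K p u (k, j)).1 + (k - a) * K, (ww2 K p u (k, j)).2) = ww2 K p u (a, j) := by
      intro a; simp only [ww2]; refine Prod.ext ?_ rfl; simp only; ring
    have key := fill_h h (x := (ww2 K p u (k, j)).1) (y := (ww2 K p u (k, j)).2)
      (k := (k - i).toNat) (l := (k - l).toNat) (p := p) (by omega) gk (by
        rw [e1, hx i]; exact gi)
    rw [e2, hx l] at key
    exact key
  have hcol : ∀ i k j l : ℤ, (j, i) ∈ T → (j, k) ∈ T → i ≤ l → l ≤ k → (j, l) ∈ T := by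
    intro i k j l hi hk hil hlk
    have gi := hGI _ hi
    have gk := hGI _ hk
    rw [hmem] at hi hk ⊢
    obtain ⟨⟨i1, i2⟩, ⟨i3, i4⟩, -⟩ := hi
    obtain ⟨-, ⟨k1, k2⟩, -⟩ := hk
    simp only at i1 i2 i3 i4 k1 k2
    refine ⟨⟨i1, i2⟩, ⟨by simp only; omega, by simp only; omega⟩, ?_⟩
    have e1 : ((k - i).toNat : ℤ) = k - i := Int.toNat_of_nonneg (by omega)
    have e2 : ((k - l).toNat : ℤ) = k - l := Int.toNat_of_nonneg (by omega)
    have hx : ∀ a : ℤ, ((ww2 K p u (j, k)).1, (ww2 K p u (j, k)).2 + (k - a) * K) = ww2 K p u (j, a) := by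
      intro a; simp only [ww2]; refine Prod.ext rfl ?_; simp only; ring
    have key := fill_v h (x := (ww2 K p u (j, k)).1) (y := (ww2 K p u (j, k)).2)
      (k := (k - i).toNat) (l := (k - l).toNat) (p := p) (by omega) gk (by
        rw [e1, hx i]; exact gi)
    rw [e2, hx l] at key
    exact key
  have hp2 := pure_comb2 T hrow hcol
  have hsumf : ∑ t ∈ T, fc P K A B m (ww2 K p u t) p =
      ∑ s ∈ S P K A B m p u, fc P K A B m (zz K p u s) p := by
    rw [hT, sum_image (fun a _ b _ hab => hcinj hab)]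
    rfl
  rw [← hcard, ← hsum, ← hsumf]
  have hfc : ∑ t ∈ T, fc P K A B m (ww2 K p u t) p ≤ ∑ s ∈ T, (if (s.1 + -1, s.2) ∈ T ∧
      (s.1, s.2 + -1) ∈ T ∧ (s.1 + -1, s.2 + -1) ∈ T then 1 else 0) := by
    refine sum_le_sum fun t ht => ?_
    obtain ⟨⟨t1, t2⟩, ⟨t3, t4⟩, -⟩ := (hmem t).1 ht
    unfold fc
    refine ife2 ?_
    rintro ⟨f1, f2, f3⟩
    have hK : 0 < K := lt_trans h.A0 h.AK
    have w1 : ((ww2 K p u t).1 + K, (ww2 K p u t).2) = ww2 K p u (t.1 + -1, t.2) := by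
      simp only [ww2]; refine Prod.ext ?_ rfl; simp only; ring
    have w2 : ((ww2 K p u t).1, (ww2 K p u t).2 + K) = ww2 K p u (t.1, t.2 + -1) := by
      simp only [ww2]; refine Prod.ext rfl ?_; simp only; ring
    have w3 : ((ww2 K p u t).1 + K, (ww2 K p u t).2 + K) = ww2 K p u (t.1 + -1, t.2 + -1) := by
      simp only [ww2]; refine Prod.ext ?_ ?_ <;> simp only <;> ring
    have u1 := mem_product.1 hu
    rw [mem_Icc, mem_Icc] at u1
    obtain ⟨⟨u1, u2⟩, u3, u4⟩ := u1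
    have g1 : 1 ≤ t.1 := by
      by_contra hcon
      have ht0 : t.1 = 0 := by omega
      have := (mem_ct.1 f1.2).2.1
      simp only [ww2, ht0] at this
      linarith
    have g2 : 1 ≤ t.2 := by
      by_contra hcon
      have ht0 : t.2 = 0 := by omega
      have := (mem_ct.1 f2.2).2.2.2.1
      simp only [ww2, ht0] at this
      linarith
    refine ⟨(hmem _).2 ⟨⟨by simp only; omega, by simp only; omega⟩, ⟨t3, t4⟩, ?_⟩,
      (hmem _).2 ⟨⟨t1, t2⟩, ⟨by simp only; omega, by simp only; omega⟩, ?_⟩,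
      (hmem _).2 ⟨⟨by simp only; omega, by simp only; omega⟩, ⟨by simp only; omega, by simp only; omega⟩, ?_⟩⟩
    · rw [← w1]; exact f1.1
    · rw [← w2]; exact f2.1
    · rw [← w3]; exact f3.1
  refine (Nat.add_le_add_left (Nat.mul_le_mul_left 2 hfc) _).trans ?_
  refine hp2.trans (Nat.add_le_add_left (sum_le_sum (fun t ht => ?_)) 2)
  have wL : ((ww2 K p u t).1 + K, (ww2 K p u t).2) = ww2 K p u (t.1 + -1, t.2) := by
    simp only [ww2]; refine Prod.ext ?_ rfl; simp only; ring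
  have wR : ((ww2 K p u t).1 - K, (ww2 K p u t).2) = ww2 K p u (t.1 + 1, t.2) := by
    simp only [ww2]; refine Prod.ext ?_ rfl; simp only; ring
  have wT : ((ww2 K p u t).1, (ww2 K p u t).2 + K) = ww2 K p u (t.1, t.2 + -1) := by
    simp only [ww2]; refine Prod.ext rfl ?_; simp only; ring
  have wB : ((ww2 K p u t).1, (ww2 K p u t).2 - K) = ww2 K p u (t.1, t.2 + 1) := by
    simp only [ww2]; refine Prod.ext rfl ?_; simp only; ring
  have htm := (hmem t).1 ht
  obtain ⟨⟨t1, t2⟩, ⟨t3, t4⟩, -⟩ := htm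
  have c1 : (if (t.1 + -1, t.2) ∈ T then 1 else 0 : ℕ) ≤
      (if GI P K A B m ((ww2 K p u t).1 + K, (ww2 K p u t).2) p then 1 else 0) :=
    ife2 (fun hin => by rw [wL]; exact hGI _ hin)
  have c2 : (if (t.1 + 1, t.2) ∈ T then 1 else 0 : ℕ) ≤
      (if GI P K A B m ((ww2 K p u t).1 - K, (ww2 K p u t).2) p then 1 else 0) :=
    ife2 (fun hin => by rw [wR]; exact hGI _ hin)
  have c3 : (if (t.1, t.2 + -1) ∈ T ∨ Up2 T (-1) t then 1 else 0 : ℕ) ≤
      (if GI P K A B m ((ww2 K p u t).1, (ww2 K p u t).2 + K) p then 1 else 0) +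
      (if jNE P K A B m (ww2 K p u t) p ∨ jNW P K A B m (ww2 K p u t) p then 1 else 0) := by
    refine if22 (fun hin => ?_)
    rcases hin with hin | hin
    · left; rw [wT]; exact hGI _ hin
    · right
      obtain ⟨d, hd, hd1, hd2, t', ht', hd3, hd4⟩ := hin
      obtain ⟨⟨t1', t2'⟩, ⟨t3', t4'⟩, -⟩ := (hmem t').1 ht'
      have hg2 : ¬ Gd P K A B m ((ww2 K p u t).1, (ww2 K p u t).2 + K) := by
        rw [wT]; intro hgd
        exact hd2 ((hmem _).2 ⟨⟨t1, t2⟩, ⟨by simp only; omega, by simp only; omega⟩, hgd⟩)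
      rcases hd with rfl | rfl
      · right
        refine ⟨?_, hg2, (t'.1 - t.1).toNat, (t.2 - t'.2).toNat, by omega, by omega, ?_⟩
        · rw [wR]; intro hgd
          exact hd1 ((hmem _).2 ⟨⟨by simp only; omega, by simp only; omega⟩, ⟨t3, t4⟩, hgd⟩)
        · have e1 : ((t'.1 - t.1).toNat : ℤ) = t'.1 - t.1 := Int.toNat_of_nonneg (by omega)
          have e2 : ((t.2 - t'.2).toNat : ℤ) = t.2 - t'.2 := Int.toNat_of_nonneg (by omega)
          have := hGI _ ht'
          rw [e1, e2]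
          convert this using 1
          simp only [ww2]; refine Prod.ext ?_ ?_ <;> simp only <;> ring
      · left
        refine ⟨?_, hg2, (t.1 - t'.1).toNat, (t.2 - t'.2).toNat, by omega, by omega, ?_⟩
        · rw [wL]; intro hgd
          exact hd1 ((hmem _).2 ⟨⟨by simp only; omega, by simp only; omega⟩, ⟨t3, t4⟩, hgd⟩)
        · have e1 : ((t.1 - t'.1).toNat : ℤ) = t.1 - t'.1 := Int.toNat_of_nonneg (by omega)
          have e2 : ((t.2 - t'.2).toNat : ℤ) = t.2 - t'.2 := Int.toNat_of_nonneg (by omega)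
          have := hGI _ ht'
          rw [e1, e2]
          convert this using 1
          simp only [ww2]; refine Prod.ext ?_ ?_ <;> simp only <;> ring
  have c4 : (if (t.1, t.2 + 1) ∈ T ∨ Up2 T 1 t then 1 else 0 : ℕ) ≤
      (if GI P K A B m ((ww2 K p u t).1, (ww2 K p u t).2 - K) p then 1 else 0) +
      (if jSE P K A B m (ww2 K p u t) p ∨ jSW P K A B m (ww2 K p u t) p then 1 else 0) := by
    refine if22 (fun hin => ?_)
    rcases hin with hin | hin
    · left; rw [wB]; exact hGI _ hin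
    · right
      obtain ⟨d, hd, hd1, hd2, t', ht', hd3, hd4⟩ := hin
      obtain ⟨⟨t1', t2'⟩, ⟨t3', t4'⟩, -⟩ := (hmem t').1 ht'
      have hg2 : ¬ Gd P K A B m ((ww2 K p u t).1, (ww2 K p u t).2 - K) := by
        rw [wB]; intro hgd
        exact hd2 ((hmem _).2 ⟨⟨t1, t2⟩, ⟨by simp only; omega, by simp only; omega⟩, hgd⟩)
      rcases hd with rfl | rfl
      · right
        refine ⟨?_, hg2, (t'.1 - t.1).toNat, (t'.2 - t.2).toNat, by omega, by omega, ?_⟩
        · rw [wR]; intro hgd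
          exact hd1 ((hmem _).2 ⟨⟨by simp only; omega, by simp only; omega⟩, ⟨t3, t4⟩, hgd⟩)
        · have e1 : ((t'.1 - t.1).toNat : ℤ) = t'.1 - t.1 := Int.toNat_of_nonneg (by omega)
          have e2 : ((t'.2 - t.2).toNat : ℤ) = t'.2 - t.2 := Int.toNat_of_nonneg (by omega)
          have := hGI _ ht'
          rw [e1, e2]
          convert this using 1
          simp only [ww2]; refine Prod.ext ?_ ?_ <;> simp only <;> ring
      · left
        refine ⟨?_, hg2, (t.1 - t'.1).toNat, (t'.2 - t.2).toNat, by omega, by omega, ?_⟩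
        · rw [wL]; intro hgd
          exact hd1 ((hmem _).2 ⟨⟨by simp only; omega, by simp only; omega⟩, ⟨t3, t4⟩, hgd⟩)
        · have e1 : ((t.1 - t'.1).toNat : ℤ) = t.1 - t'.1 := Int.toNat_of_nonneg (by omega)
          have e2 : ((t'.2 - t.2).toNat : ℤ) = t'.2 - t.2 := Int.toNat_of_nonneg (by omega)
          have := hGI _ ht'
          rw [e1, e2]
          convert this using 1
          simp only [ww2]; refine Prod.ext ?_ ?_ <;> simp only <;> ring
  unfold cost
  omega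

end Prc24
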