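import Pool.Agent.Prc24c.Disc2
import Pool.Agent.Prc92.Dens

/-!
# The sharp lower bound for the density of a piercing set

The discretisation is the one of `Prc92.dens_lower` (mesh `w2 / n`, `h1 / n`).
-/

namespace Prc24

open Finset Filter Topology Classical

/-- the discretised set satisfies the standing hypotheses -/
private lemma prc_PK2 {w1 h1 w2 h2 ξ η : ℝ} {m n : ℕ} (hm : 2 ≤ m) (hn : 1 ≤ n) (hw2 : 0 < w2)
    (hh1 : 0 < h1) (hξ0 : 0 < ξ) (hξ1 : ξ < 1) (hη0 : 0 < η) (hη1 : η < 1)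
    (hw : w1 = (m + ξ) * w2) (hh : h2 = (m + η) * h1) {Q : Set (ℝ × ℝ)}
    (hA : m ≤ ⌊(n : ℝ) * ξ⌋₊) (hB : m ≤ ⌊(n : ℝ) * η⌋₊)
    (hQ1 : ∀ a b : ℝ, ∃ q ∈ Q, a ≤ q.1 ∧ q.1 ≤ a + w1 ∧ b ≤ q.2 ∧ q.2 ≤ b + h1)
    (hQ2 : ∀ a b : ℝ, ∃ q ∈ Q, a ≤ q.1 ∧ q.1 ≤ a + w2 ∧ b ≤ q.2 ∧ q.2 ≤ b + h2) :
    Prc (Prc92.PK (w2 / n) (h1 / n) Q) ((n : ℤ) + 1) ((⌊(n : ℝ) * ξ⌋₊ : ℤ) - (m - 1))
      ((⌊(n : ℝ) * η⌋₊ : ℤ) - (m - 1)) m := by
  have hn0 : (0 : ℝ) < n := by exact_mod_cast hn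
  have hsx : 0 < w2 / n := by positivity
  have hsy : 0 < h1 / n := by positivity
  obtain ⟨k, rfl⟩ : ∃ k : ℕ, m = k + 1 := ⟨m - 1, by omega⟩
  have hfl : ∀ θ : ℝ, 0 < θ → θ < 1 → ⌊(n : ℝ) * θ⌋₊ < n := by
    intro θ h0 h1
    have h3 : ((⌊(n : ℝ) * θ⌋₊ : ℕ) : ℝ) ≤ (n : ℝ) * θ := Nat.floor_le (by positivity)
    have h4 : ((⌊(n : ℝ) * θ⌋₊ : ℕ) : ℝ) < n := by nlinarith
    exact_mod_cast h4
  have hx := hfl ξ hξ0 hξ1
  have hy := hfl η hη0 hη1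
  have hBx := Prc92.bnd_PK (K := n) (k := k) (Q := Q) (W := w1) (H := h1) hsx hsy hξ0.le
    (by rw [hw]; push_cast; field_simp) (by field_simp) hQ1
  have hBy : Prc92.Bnd (Prc92.sw (Prc92.PK (w2 / n) (h1 / n) Q)) (n + 1)
      (k * (n + 1) + (⌊(n : ℝ) * η⌋₊ - k)) := by
    rw [Prc92.sw_PK]
    refine Prc92.bnd_PK (K := n) (k := k) (W := h2) (H := w2) hsy hsx hη0.le
      (by rw [hh]; push_cast; field_simp) (by field_simp) ?_
    intro a b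
    obtain ⟨q, hq, e1, e2, e3, e4⟩ := hQ2 b a
    exact ⟨q.swap, ⟨q, hq, rfl⟩, e3, e4, e1, e2⟩
  push_cast
  refine ⟨by omega, by omega, by omega, by omega, hm, ?_, ?_⟩
  · intro x y
    obtain ⟨i, hi, hF⟩ := hBx (x, y)
    unfold Prc92.Fr at hF
    push Not at hF
    obtain ⟨p, hp, h1, h2, h3, h4⟩ := hF
    refine ⟨p, hp, ?_, ?_, h3, ?_⟩
    · simp only at h1
      omega
    · simp only at h2
      have h5 : (i : ℤ) ≤ k * (n + 1) + ((⌊(n : ℝ) * ξ⌋₊ : ℤ) - k) := by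
        have : (i : ℤ) ≤ ((k * (n + 1) + (⌊(n : ℝ) * ξ⌋₊ - k) : ℕ) : ℤ) := by exact_mod_cast hi
        rw [Nat.cast_add, Nat.cast_sub (by omega)] at this
        push_cast at this
        exact this
      push_cast at h2
      push_cast
      linarith
    · simp only at h4
      push_cast at h4
      exact h4
  · intro x y
    obtain ⟨i, hi, hF⟩ := hBy (y, x)
    unfold Prc92.Fr at hF
    push Not at hF
    obtain ⟨p, hp, h1, h2, h3, h4⟩ := hF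
    refine ⟨p.swap, Prc92.mem_sw.1 hp, ?_, ?_, ?_, ?_⟩
    · simp only at h3
      simpa using h3
    · simp only at h4
      push_cast at h4
      simpa using h4
    · simp only at h1
      simp only [Prod.snd_swap]
      omega
    · simp only at h2
      have h5 : (i : ℤ) ≤ k * (n + 1) + ((⌊(n : ℝ) * η⌋₊ : ℤ) - k) := by
        have : (i : ℤ) ≤ ((k * (n + 1) + (⌊(n : ℝ) * η⌋₊ - k) : ℕ) : ℤ) := by exact_mod_cast hi
        rw [Nat.cast_add, Nat.cast_sub (by omega)] at this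
        push_cast at this
        exact this
      simp only [Prod.snd_swap]
      push_cast at h2
      push_cast
      linarith

theorem dens_lower2 {w1 h1 w2 h2 ξ η : ℝ} {m : ℕ} (hm : 2 ≤ m) (hw2 : 0 < w2) (hh1 : 0 < h1)
    (hξ0 : 0 < ξ) (hξ1 : ξ < 1) (hη0 : 0 < η) (hη1 : η < 1)
    (hw : w1 = (m + ξ) * w2) (hh : h2 = (m + η) * h1) {Q : Set (ℝ × ℝ)}
    (hQ1 : ∀ a b : ℝ, ∃ q ∈ Q, a ≤ q.1 ∧ q.1 ≤ a + w1 ∧ b ≤ q.2 ∧ q.2 ≤ b + h1)
    (hQ2 : ∀ a b : ℝ, ∃ q ∈ Q, a ≤ q.1 ∧ q.1 ≤ a + w2 ∧ b ≤ q.2 ∧ q.2 ≤ b + h2) :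
    ENNReal.ofReal (1 / (DL m ξ η * w2 * h1))
      ≤ limsup (fun r : ℝ => ((Q ∩ Prc92.bx r).encard : ENNReal) / ENNReal.ofReal (4 * r ^ 2))
        atTop := by
  have hm' : (2 : ℝ) ≤ m := by exact_mod_cast hm
  have hD0 : 0 < DL m ξ η := by
    unfold DL
    refine lt_of_lt_of_le ?_ (le_max_right _ _)
    positivity
  by_contra hcon
  push Not at hcon
  obtain ⟨c, hc1, hc2⟩ := exists_between hcon
  have hctop : c ≠ ⊤ := (hc2.trans ENNReal.ofReal_lt_top).ne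
  set c' := c.toReal with hc'
  have hc'0 : 0 ≤ c' := ENNReal.toReal_nonneg
  have hcc : c = ENNReal.ofReal c' := (ENNReal.ofReal_toReal hctop).symm
  have hL0 : (0 : ℝ) < DL m ξ η * w2 * h1 := by positivity
  have hc'L : c' < 1 / (DL m ξ η * w2 * h1) := by
    rw [hcc, ENNReal.ofReal_lt_ofReal_iff (by positivity)] at hc2
    exact hc2
  have hev : ∀ᶠ r : ℝ in atTop, (Q ∩ Prc92.bx r).Finite ∧
      ((Q ∩ Prc92.bx r).ncard : ℝ) ≤ c' * (4 * r ^ 2) := by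
    filter_upwards [eventually_lt_of_limsup_lt hc1, eventually_gt_atTop 0] with r hr hr0
    have h4 : (0 : ℝ) < 4 * r ^ 2 := by positivity
    have h5 : ((Q ∩ Prc92.bx r).encard : ENNReal) ≤ c * ENNReal.ofReal (4 * r ^ 2) := by
      have := (ENNReal.div_le_iff_le_mul (Or.inl (by rw [Ne, ENNReal.ofReal_eq_zero]; linarith))
        (Or.inl ENNReal.ofReal_ne_top)).1 hr.le
      exact this
    rw [hcc, ← ENNReal.ofReal_mul hc'0] at h5
    have h6 : (Q ∩ Prc92.bx r).Finite := by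
      rw [← Set.encard_ne_top_iff]
      intro h7
      rw [h7] at h5
      simp at h5
    refine ⟨h6, ?_⟩
    have h7 : (Q ∩ Prc92.bx r).encard = ((Q ∩ Prc92.bx r).ncard : ℕ∞) := h6.cast_ncard_eq.symm
    rw [h7] at h5
    have h8 : (((Q ∩ Prc92.bx r).ncard : ℕ) : ENNReal) ≤ ENNReal.ofReal (c' * (4 * r ^ 2)) := by
      simpa using h5
    rw [← ENNReal.ofReal_natCast, ENNReal.ofReal_le_ofReal_iff (by positivity)] at h8
    exact h8
  -- the bound for every fine mesh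
  have hK : ∀ n : ℕ, 1 ≤ n → m ≤ ⌊(n : ℝ) * ξ⌋₊ → m ≤ ⌊(n : ℝ) * η⌋₊ →
      (n : ℝ) ^ 2 ≤ (DL m ξ η * w2 * h1 * c') * ((n : ℝ) + 1) ^ 2 := by
    intro n hn hA hB
    have hn0 : (0 : ℝ) < n := by exact_mod_cast hn
    have hsx : 0 < w2 / n := by positivity
    have hsy : 0 < h1 / n := by positivity
    obtain ⟨μ, hμ⟩ := Prc92.mean_le hsx hsy hev
    have hP := prc_PK2 hm hn hw2 hh1 hξ0 hξ1 hη0 hη1 hw hh hA hB hQ1 hQ2
    have hd := disc2 μ hP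
    have hd0 : ind μ (· ∈ Prc92.PK (w2 / n) (h1 / n) Q) ≤ c' * (w2 / n * (h1 / n)) := hμ
    have hmZ : ((m : ℤ) - 1 : ℤ) ≤ ⌊(n : ℝ) * ξ⌋₊ := by omega
    have hfr : ∀ θ : ℝ, 0 < θ → m ≤ ⌊(n : ℝ) * θ⌋₊ →
        0 ≤ ((((⌊(n : ℝ) * θ⌋₊ : ℤ) - (m - 1) : ℤ) : ℝ)) / (((n : ℤ) + 1 : ℤ) : ℝ) ∧
        ((((⌊(n : ℝ) * θ⌋₊ : ℤ) - (m - 1) : ℤ) : ℝ)) / (((n : ℤ) + 1 : ℤ) : ℝ) ≤ θ := by
      intro θ h0 hmθ
      have h3 : ((⌊(n : ℝ) * θ⌋₊ : ℕ) : ℝ) ≤ (n : ℝ) * θ := Nat.floor_le (by positivity)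
      have h4 : (m : ℝ) ≤ ((⌊(n : ℝ) * θ⌋₊ : ℕ) : ℝ) := by exact_mod_cast hmθ
      push_cast
      constructor
      · apply div_nonneg
        · linarith
        · linarith
      · rw [div_le_iff₀ (by linarith)]
        nlinarith
    obtain ⟨x0, x1⟩ := hfr ξ hξ0 hA
    obtain ⟨y0, y1⟩ := hfr η hη0 hB
    have hmono := DL_mono (m := (m : ℝ)) (by linarith) x0 x1 y0 y1
    have hi0 : 0 ≤ ind μ (· ∈ Prc92.PK (w2 / n) (h1 / n) Q) := by
      unfold ind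
      exact μ.nonneg (Prc92.Bd.of_le 1 (fun z => by split_ifs <;> norm_num)
        (fun z => by split_ifs <;> norm_num)) (fun z => by split_ifs <;> norm_num)
    have h5 : 1 ≤ (((n : ℤ) + 1 : ℤ) : ℝ) ^ 2 * (c' * (w2 / n * (h1 / n))) * DL m ξ η := by
      refine hd.trans ?_
      refine mul_le_mul ?_ hmono ?_ (by positivity)
      · exact mul_le_mul_of_nonneg_left hd0 (by positivity)
      · unfold DL
        refine le_max_of_le_right ?_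
        positivity
    have e : (((n : ℤ) + 1 : ℤ) : ℝ) ^ 2 * (c' * (w2 / n * (h1 / n))) * DL m ξ η
        = (DL m ξ η * w2 * h1 * c') * ((n : ℝ) + 1) ^ 2 / (n : ℝ) ^ 2 := by
      push_cast
      field_simp
    rw [e, le_div_iff₀ (by positivity)] at h5
    linarith
  set θ := DL m ξ η * w2 * h1 * c' with hθ
  have hθ1 : θ < 1 := by
    rw [lt_div_iff₀ hL0] at hc'L
    rw [hθ]
    linarith
  have hθ0 : 0 ≤ θ := by
    rw [hθ]
    positivity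
  have h1θ : 0 < 1 - θ := by linarith
  obtain ⟨N, hNl⟩ := exists_nat_gt (3 / (1 - θ) + m / ξ + m / η)
  have p1 : (0 : ℝ) ≤ 3 / (1 - θ) := by positivity
  have p2 : (0 : ℝ) ≤ m / ξ := by positivity
  have p3 : (0 : ℝ) ≤ m / η := by positivity
  have q1 : 3 / (1 - θ) < N := by linarith
  have q2 : m / ξ ≤ N := by linarith
  have q3 : m / η ≤ N := by linarith
  rw [div_lt_iff₀ h1θ] at q1
  rw [div_le_iff₀ hξ0] at q2
  rw [div_le_iff₀ hη0] at q3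
  have hN1 : 1 ≤ N := by
    by_contra h
    have : N = 0 := by omega
    rw [this] at q1
    simp at q1
    linarith
  have hN1' : (1 : ℝ) ≤ N := by exact_mod_cast hN1
  have := hK N hN1 (Nat.le_floor q2) (Nat.le_floor q3)
  nlinarith

end Prc24
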