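import Pool.Agent.Prc24c.Disch
import Pool.Agent.Prc92s.Main
import Pool.Agent.Prc24.Key

/-!
# The sharp density bound for grid sets
-/

namespace Prc24

open Finset Classical

variable {P : Set Z2} {K A B : ℤ} {m : ℕ}

/-- the maximal area per point -/
noncomputable def DL (m a b : ℝ) : ℝ := max (1 + (m - 1 + a) * (m - 1 + b) / m) m

private lemma dl_alg {m a b N g t : ℝ} (hm : 2 ≤ m) (ha : 0 < a) (ha1 : a < 1) (hb : 0 < b) (hb1 : b < 1)
    (hN : 0 ≤ N) (h1 : m + 1 + t = (m + a) * (m + b) * N + g)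
    (h2 : a * b * (m * g) ≤ ((1 - a) * (1 - b)) * (a * b * N + (m - 1) * t))
    (h3 : g ≤ m * ((1 - a) * (1 - b)) * N) (ht : 0 ≤ t) : 1 ≤ N * DL m a b := by
  have hab : 0 < a * b := mul_pos ha hb
  have hx : 0 < (1 - a) * (1 - b) := mul_pos (by linarith) (by linarith)
  by_cases hc : (m - 1) * ((1 - a) * (1 - b)) ≤ m * (a * b)
  · have h4 : m * (g - t) ≤ (1 - a) * (1 - b) * N := by
      have h5 : a * b * (m * (g - t)) ≤ a * b * ((1 - a) * (1 - b) * N) := by
        have h6 := mul_le_mul_of_nonneg_right hc ht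
        nlinarith [h2, h6]
      exact le_of_mul_le_mul_left h5 hab
    have h5 : m * (m + 1) ≤ (m + 1) * (N * (m + (m - 1 + a) * (m - 1 + b))) := by
      have h7 : (m + 1) * (N * (m + (m - 1 + a) * (m - 1 + b))) =
        m * ((m + a) * (m + b) * N) + (1 - a) * (1 - b) * N := by ring
      rw [h7]
      have h8 : (m + a) * (m + b) * N = m + 1 + t - g := by linarith
      rw [h8]
      nlinarith [h4]
    have h6 : m ≤ N * (m + (m - 1 + a) * (m - 1 + b)) := by
      have h7 : (m + 1) * m ≤ (m + 1) * (N * (m + (m - 1 + a) * (m - 1 + b))) := by linarith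
      exact le_of_mul_le_mul_left h7 (by linarith)
    have h7 : 1 ≤ N * (1 + (m - 1 + a) * (m - 1 + b) / m) := by
      have hm0 : m ≠ 0 := by linarith
      have h8 : N * (1 + (m - 1 + a) * (m - 1 + b) / m) = N * (m + (m - 1 + a) * (m - 1 + b)) / m := by
        field_simp
      rw [h8, le_div_iff₀ (by linarith)]
      linarith
    exact h7.trans (mul_le_mul_of_nonneg_left (le_max_left _ _) hN)
  · push Not at hc
    have h4 := mul_le_mul_of_nonneg_left h3 (sub_nonneg.2 hc.le)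
    have ht' : t = (m + a) * (m + b) * N + g - m - 1 := by linarith
    rw [ht'] at h2
    have h5 : (1 - a) * (1 - b) * ((m - 1) * (m + 1)) ≤
        (1 - a) * (1 - b) * ((m - 1) * (m + 1) * (N * m)) := by
      nlinarith [h2, h4]
    have h6 : (m - 1) * (m + 1) * 1 ≤ (m - 1) * (m + 1) * (N * m) := by
      have := le_of_mul_le_mul_left h5 hx
      linarith
    have h7 : 1 ≤ N * m := le_of_mul_le_mul_left h6 (mul_pos (by linarith) (by linarith))
    exact h7.trans (mul_le_mul_of_nonneg_left (le_max_right _ _) hN)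

private lemma ind_nn (μ : Prc92.Mean) (Q : Z2 → Prop) : 0 ≤ ind μ Q :=
  μ.nonneg (bd_ind Q) fun z => by split_ifs <;> norm_num

theorem disc2 (μ : Prc92.Mean) (h : Prc P K A B m) :
    1 ≤ (K : ℝ) ^ 2 * ind μ (· ∈ P) * DL m ((A : ℝ) / K) ((B : ℝ) / K) := by
  have h1 := ident2 μ h
  have h2 := sharp_of μ h (discharge' μ h) (claims_le μ h)
  have h3 := key3 μ h
  have hA : (0 : ℝ) < A := by exact_mod_cast h.A0
  have hB : (0 : ℝ) < B := by exact_mod_cast h.B0
  have hAK : (A : ℝ) < K := by exact_mod_cast h.AK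
  have hBK : (B : ℝ) < K := by exact_mod_cast h.BK
  have hK : (0 : ℝ) < K := hA.trans hAK
  have hK0 : (K : ℝ) ≠ 0 := hK.ne'
  have hm : (2 : ℝ) ≤ m := by exact_mod_cast h.m2
  have hn := ind_nn μ (· ∈ P)
  have ht : 0 ≤ μ.M (fun z => ((f P K A B m z - (m + 1) : ℕ) : ℝ)) := by
    refine μ.nonneg (Prc92.Bd.of_le (((m * K + A).toNat * (m * K + B).toNat : ℕ) : ℝ)
      (fun z => Nat.cast_nonneg _) (fun z => ?_)) (fun z => Nat.cast_nonneg _)
    have h1 : ((f P K A B m z - (m + 1) : ℕ) : ℝ) ≤ (f P K A B m z : ℝ) := by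
      exact_mod_cast Nat.sub_le _ _
    exact h1.trans (f_le_real z)
  generalize μ.M (fun z => ((f P K A B m z - (m + 1) : ℕ) : ℝ)) = t at *
  generalize ind μ (Gd P K A B m) = g at *
  generalize ind μ (· ∈ P) = n at *
  obtain ⟨a, ha⟩ : ∃ a : ℝ, a = A / K := ⟨_, rfl⟩
  obtain ⟨b, hb⟩ : ∃ b : ℝ, b = B / K := ⟨_, rfl⟩
  have hA' : (A : ℝ) = a * K := by rw [ha]; field_simp
  have hB' : (B : ℝ) = b * K := by rw [hb]; field_simp
  rw [← ha, ← hb]
  have ha0 : 0 < a := by rw [ha]; positivity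
  have hb0 : 0 < b := by rw [hb]; positivity
  have ha1 : a < 1 := by rw [ha]; exact (div_lt_one hK).2 hAK
  have hb1 : b < 1 := by rw [hb]; exact (div_lt_one hK).2 hBK
  rw [hA', hB'] at h1 h2 h3
  have hK2 : (0 : ℝ) < K ^ 2 := by positivity
  refine dl_alg (N := (K : ℝ) ^ 2 * n) (g := g) (t := t) hm ha0 ha1 hb0 hb1 (by positivity) ?_ ?_ ?_ ht
  · refine h1.trans ?_
    ring
  · have h4 : (K : ℝ) ^ 2 * (a * b * (m * g)) ≤
      (K : ℝ) ^ 2 * ((1 - a) * (1 - b) * (a * b * ((K : ℝ) ^ 2 * n) + (m - 1) * t)) := by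
      calc (K : ℝ) ^ 2 * (a * b * (m * g)) = a * K * (b * K) * (m * g) := by ring
        _ ≤ _ := h2
        _ = _ := by ring
    exact le_of_mul_le_mul_left h4 hK2
  · refine h3.trans (le_of_eq ?_)
    ring

lemma DL_mono {m a b a' b' : ℝ} (hm : 1 ≤ m) (h0 : 0 ≤ a) (h1 : a ≤ a') (h2 : 0 ≤ b) (h3 : b ≤ b') :
    DL m a b ≤ DL m a' b' := by
  unfold DL
  refine max_le_max ?_ le_rfl
  have h4 : (m - 1 + a) * (m - 1 + b) ≤ (m - 1 + a') * (m - 1 + b') :=
    mul_le_mul (by linarith) (by linarith) (by linarith) (by linarith)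
  have h5 : (m - 1 + a) * (m - 1 + b) / m ≤ (m - 1 + a') * (m - 1 + b') / m :=
    div_le_div_of_nonneg_right h4 (by linarith)
  linarith

end Prc24
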