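import Pool.Agent.Prc24c.Sharp
import Pool.Agent.Prc23s.Main

/-!
# The discharging inequality (interface)
-/

namespace Prc24

open Finset Classical

variable {P : Set Z2} {K A B : ℤ} {m : ℕ}

theorem discharge' (μ : Prc92.Mean) (h : Prc P K A B m) :
    μ.M (vcost P K A B m) + μ.M (jcost P K A B m) ≤ μ.M (tt P K A B m) :=
  Prc23s.discharge μ h

end Prc24
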