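import Pool.Agent.Prc24c.Comb2

/-!
# The four windows of a face share at least `m - 2` points, and `m - 1` if the corner cell is occupied
-/

namespace Prc24

open Finset Classical

variable {P : Set Z2} {K A B : ℤ} {m : ℕ}

lemma face_share (h : Prc P K A B m) {z : Z2} (hF : Fa P K A B m z) :
    m ≤ ∑ p ∈ ct P K A B m z, fc P K A B m z p + 2 - (if K1 P K A B m z then 1 else 0) := by
  obtain ⟨hz, h1, h2, h3⟩ := hF
  have hK : 0 < K := lt_trans h.A0 h.AK
  set G := (ct P K A B m z).filter (fun p => z.1 + K ≤ p.1 ∧ z.2 + K ≤ p.2) with hG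
  have hsum : G.card ≤ ∑ p ∈ ct P K A B m z, fc P K A B m z p := by
    rw [hG, card_filter]
    refine sum_le_sum fun p hp => ?_
    unfold fc
    by_cases hc : z.1 + K ≤ p.1 ∧ z.2 + K ≤ p.2
    · obtain ⟨c1, c2⟩ := hc
      obtain ⟨q0, q1, q2, q3, q4⟩ := mem_ct.1 hp
      have g1 : GI P K A B m (z.1 + K, z.2) p := by
        refine ⟨h1, mem_ct.2 ⟨q0, ?_, ?_, ?_, ?_⟩⟩ <;> simp only <;> linarith
      have g2 : GI P K A B m (z.1, z.2 + K) p := by
        refine ⟨h2, mem_ct.2 ⟨q0, ?_, ?_, ?_, ?_⟩⟩ <;> simp only <;> linarith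
      have g3 : GI P K A B m (z.1 + K, z.2 + K) p := by
        refine ⟨h3, mem_ct.2 ⟨q0, ?_, ?_, ?_, ?_⟩⟩ <;> simp only <;> linarith
      rw [if_pos ⟨c1, c2⟩, if_pos ⟨g1, g2, g3⟩]
    · rw [if_neg hc]
      exact Nat.zero_le _
  have hcol : ((ct P K A B m z).filter (fun p => p.1 < z.1 + K)).card ≤ 1 := by
    rw [card_le_one]
    intro p hp q hq
    rw [mem_filter] at hp hq
    have p1 := mem_ct.1 hp.1
    have q1 := mem_ct.1 hq.1
    refine col_inj h hz (i := 0) hp.1 hq.1 ?_ ?_ ?_ ?_ <;> push_cast <;> linarith [p1.2.1, q1.2.1, hp.2, hq.2]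
  have hrow : ((ct P K A B m z).filter (fun p => p.2 < z.2 + K)).card ≤ 1 := by
    rw [card_le_one]
    intro p hp q hq
    rw [mem_filter] at hp hq
    have p1 := mem_ct.1 hp.1
    have q1 := mem_ct.1 hq.1
    refine row_inj h hz (i := 0) hp.1 hq.1 ?_ ?_ ?_ ?_ <;> push_cast <;>
      linarith [p1.2.2.2.1, q1.2.2.2.1, hp.2, hq.2]
  have hcard : (ct P K A B m z).card = m := hz
  have hsp : G.card + ((ct P K A B m z).filter (fun p => ¬ (z.1 + K ≤ p.1 ∧ z.2 + K ≤ p.2))).card =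
      (ct P K A B m z).card := by
    rw [hG]
    convert Finset.card_filter_add_card_filter_not (s := ct P K A B m z)
      (fun p => z.1 + K ≤ p.1 ∧ z.2 + K ≤ p.2)
  have hsub : (ct P K A B m z).filter (fun p => ¬ (z.1 + K ≤ p.1 ∧ z.2 + K ≤ p.2)) ⊆
      (ct P K A B m z).filter (fun p => p.1 < z.1 + K) ∪ (ct P K A B m z).filter (fun p => p.2 < z.2 + K) := by
    intro p hp
    rw [mem_filter] at hp
    rw [mem_union, mem_filter, mem_filter]
    by_cases hc : p.1 < z.1 + K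
    · exact Or.inl ⟨hp.1, hc⟩
    · right
      refine ⟨hp.1, ?_⟩
      by_contra hcon
      exact hp.2 ⟨not_lt.1 hc, not_lt.1 hcon⟩
  have hle := card_le_card hsub
  have hle2 : ((ct P K A B m z).filter (fun p => ¬ (z.1 + K ≤ p.1 ∧ z.2 + K ≤ p.2))).card ≤
    ((ct P K A B m z).filter (fun p => p.1 < z.1 + K) ∪
      (ct P K A B m z).filter (fun p => p.2 < z.2 + K)).card := hle
  have hun := card_union_add_card_inter ((ct P K A B m z).filter (fun p => p.1 < z.1 + K))
    ((ct P K A B m z).filter (fun p => p.2 < z.2 + K))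
  by_cases hk : K1 P K A B m z
  · rw [if_pos hk]
    obtain ⟨-, p, hp, p1, p2⟩ := hk
    have hi : 0 < ((ct P K A B m z).filter (fun p => p.1 < z.1 + K) ∩
        (ct P K A B m z).filter (fun p => p.2 < z.2 + K)).card := by
      rw [card_pos]
      exact ⟨p, mem_inter.2 ⟨mem_filter.2 ⟨hp, p1⟩, mem_filter.2 ⟨hp, p2⟩⟩⟩
    omega
  · rw [if_neg hk]
    omega

end Prc24
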