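import Pool.Agent.Prc24.Defs
import Pool.Agent.Prc92.Dens

/-!
# From grid sets to the plane, and the bound for a single rectangle
-/

namespace Prc24

open Finset Filter Topology Classical

lemma ind_nonneg' (μ : Prc92.Mean) (Q : Z2 → Prop) : 0 ≤ ind μ Q := by
  unfold ind
  exact μ.nonneg (Prc92.Bd.of_le 1 (fun z => by split_ifs <;> norm_num)
    (fun z => by split_ifs <;> norm_num)) (fun z => by split_ifs <;> norm_num)

theorem limit_arg {w2 h1 D : ℝ} (hw2 : 0 < w2) (hh1 : 0 < h1) (hD : 0 < D) {Q : Set (ℝ × ℝ)} (N0 : ℕ)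
    (H : ∀ n : ℕ, N0 ≤ n → 1 ≤ n → ∀ μ : Prc92.Mean,
      1 ≤ ((n : ℝ) + 1) ^ 2 * ind μ (· ∈ Prc92.PK (w2 / n) (h1 / n) Q) * D) :
    ENNReal.ofReal (1 / (D * w2 * h1))
      ≤ limsup (fun r : ℝ => ((Q ∩ Prc92.bx r).encard : ENNReal) / ENNReal.ofReal (4 * r ^ 2))
        atTop := by
  by_contra hcon
  push Not at hcon
  obtain ⟨c, hc1, hc2⟩ := exists_between hcon
  have hctop : c ≠ ⊤ := (hc2.trans ENNReal.ofReal_lt_top).ne
  set c' := c.toReal with hc'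
  have hc'0 : 0 ≤ c' := ENNReal.toReal_nonneg
  have hcc : c = ENNReal.ofReal c' := (ENNReal.ofReal_toReal hctop).symm
  have hL0 : (0 : ℝ) < D * w2 * h1 := by positivity
  have hc'L : c' < 1 / (D * w2 * h1) := by
    rw [hcc, ENNReal.ofReal_lt_ofReal_iff (by positivity)] at hc2
    exact hc2
  have hev : ∀ᶠ r : ℝ in atTop, (Q ∩ Prc92.bx r).Finite ∧
      ((Q ∩ Prc92.bx r).ncard : ℝ) ≤ c' * (4 * r ^ 2) := by
    filter_upwards [eventually_lt_of_limsup_lt hc1, eventually_gt_atTop 0] with r hr hr0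
    have h4 : (0 : ℝ) < 4 * r ^ 2 := by positivity
    have h5 : ((Q ∩ Prc92.bx r).encard : ENNReal) ≤ c * ENNReal.ofReal (4 * r ^ 2) := by
      have := (ENNReal.div_le_iff_le_mul (Or.inl (by rw [Ne, ENNReal.ofReal_eq_zero]; linarith))
        (Or.inl ENNReal.ofReal_ne_top)).1 hr.le
      exact this
    rw [hcc, ← ENNReal.ofReal_mul hc'0] at h5
    have h6 : (Q ∩ Prc92.bx r).Finite := by
      rw [← Set.encard_ne_top_iff]
      intro h7
      rw [h7] at h5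
      simp at h5
    refine ⟨h6, ?_⟩
    have h7 : (Q ∩ Prc92.bx r).encard = ((Q ∩ Prc92.bx r).ncard : ℕ∞) := h6.cast_ncard_eq.symm
    rw [h7] at h5
    have h8 : (((Q ∩ Prc92.bx r).ncard : ℕ) : ENNReal) ≤ ENNReal.ofReal (c' * (4 * r ^ 2)) := by
      simpa using h5
    rw [← ENNReal.ofReal_natCast, ENNReal.ofReal_le_ofReal_iff (by positivity)] at h8
    exact h8
  have hK : ∀ n : ℕ, N0 ≤ n → 1 ≤ n → (n : ℝ) ^ 2 ≤ (D * w2 * h1 * c') * ((n : ℝ) + 1) ^ 2 := by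
    intro n hN hn
    have hn0 : (0 : ℝ) < n := by exact_mod_cast hn
    have hsx : 0 < w2 / n := by positivity
    have hsy : 0 < h1 / n := by positivity
    obtain ⟨μ, hμ⟩ := Prc92.mean_le hsx hsy hev
    have hd := H n hN hn μ
    have hd0 : ind μ (· ∈ Prc92.PK (w2 / n) (h1 / n) Q) ≤ c' * (w2 / n * (h1 / n)) := hμ
    have h5 : 1 ≤ ((n : ℝ) + 1) ^ 2 * (c' * (w2 / n * (h1 / n))) * D := by
      refine hd.trans ?_
      refine mul_le_mul_of_nonneg_right ?_ hD.le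
      exact mul_le_mul_of_nonneg_left hd0 (by positivity)
    have e : ((n : ℝ) + 1) ^ 2 * (c' * (w2 / n * (h1 / n))) * D
        = (D * w2 * h1 * c') * ((n : ℝ) + 1) ^ 2 / (n : ℝ) ^ 2 := by
      field_simp
    rw [e, le_div_iff₀ (by positivity)] at h5
    linarith
  set θ := D * w2 * h1 * c' with hθ
  have hθ1 : θ < 1 := by
    rw [lt_div_iff₀ hL0] at hc'L
    rw [hθ]
    linarith
  have hθ0 : 0 ≤ θ := by
    rw [hθ]
    positivity
  have h1θ : 0 < 1 - θ := by linarith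
  obtain ⟨N, hNl⟩ := exists_nat_gt (3 / (1 - θ) + N0)
  have p1 : (0 : ℝ) ≤ 3 / (1 - θ) := by positivity
  have p2 : (0 : ℝ) ≤ N0 := Nat.cast_nonneg _
  have q1 : 3 / (1 - θ) < N := by linarith
  have q2 : (N0 : ℝ) ≤ N := by linarith
  rw [div_lt_iff₀ h1θ] at q1
  have hN1 : 1 ≤ N := by
    by_contra h
    have : N = 0 := by omega
    rw [this] at q1
    simp at q1
    linarith
  have hN1' : (1 : ℝ) ≤ N := by exact_mod_cast hN1
  have := hK N (by exact_mod_cast q2) hN1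
  nlinarith

/-- a point of the discretised set -/
lemma PK_pt {sx sy W H : ℝ} {Q : Set (ℝ × ℝ)} (hx : 0 < sx) (hy : 0 < sy)
    (hQ : ∀ a b : ℝ, ∃ q ∈ Q, a ≤ q.1 ∧ q.1 ≤ a + W ∧ b ≤ q.2 ∧ q.2 ≤ b + H) (x y : ℤ) :
    ∃ p ∈ Prc92.PK sx sy Q, x ≤ p.1 ∧ p.1 ≤ x + ⌊W / sx⌋ ∧ y ≤ p.2 ∧ p.2 ≤ y + ⌊H / sy⌋ := by
  obtain ⟨q, hq, h1, h2, h3, h4⟩ := hQ (x * sx) (y * sy)
  refine ⟨(⌊q.1 / sx⌋, ⌊q.2 / sy⌋), ⟨q, hq, rfl, rfl⟩, ?_, ?_, ?_, ?_⟩
  · simp only
    rw [Int.le_floor, le_div_iff₀ hx]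
    exact h1
  · simp only
    have h5 : q.1 / sx ≤ x + W / sx := by
      rw [div_le_iff₀ hx]
      have : (x + W / sx) * sx = x * sx + W := by field_simp
      rw [this]
      exact h2
    have h6 := Int.floor_le_floor h5
    rwa [Int.floor_intCast_add] at h6
  · simp only
    rw [Int.le_floor, le_div_iff₀ hy]
    exact h3
  · simp only
    have h5 : q.2 / sy ≤ y + H / sy := by
      rw [div_le_iff₀ hy]
      have : (y + H / sy) * sy = y * sy + H := by field_simp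
      rw [this]
      exact h4
    have h6 := Int.floor_le_floor h5
    rwa [Int.floor_intCast_add] at h6

/-- mean of the number of points in a window -/
lemma win_mean (μ : Prc92.Mean) (P : Set Z2) (D : Finset Z2) :
    μ.M (fun z => ∑ d ∈ D, (if z + d ∈ P then (1 : ℝ) else 0)) = D.card * ind μ (· ∈ P) := by
  have hb : Prc92.Bd (fun z : Z2 => if z ∈ P then (1 : ℝ) else 0) :=
    ⟨1, fun z => by by_cases hz : z ∈ P <;> simp [hz]⟩
  rw [μ.sum D (f := fun d z => if z + d ∈ P then (1 : ℝ) else 0) (fun d _ => hb.comp fun z => z + d)]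
  have : ∀ d ∈ D, μ.M (fun z => if z + d ∈ P then (1 : ℝ) else 0) = ind μ (· ∈ P) := by
    intro d _
    exact μ.shift _ hb d
  rw [sum_congr rfl this, sum_const, nsmul_eq_mul]

/-- a single rectangle -/
theorem single {w h : ℝ} (hw : 0 < w) (hh : 0 < h) {Q : Set (ℝ × ℝ)}
    (hQ : ∀ a b : ℝ, ∃ q ∈ Q, a ≤ q.1 ∧ q.1 ≤ a + w ∧ b ≤ q.2 ∧ q.2 ≤ b + h) :
    ENNReal.ofReal (1 / (w * h))
      ≤ limsup (fun r : ℝ => ((Q ∩ Prc92.bx r).encard : ENNReal) / ENNReal.ofReal (4 * r ^ 2))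
        atTop := by
  have e : w * h = 1 * w * h := by ring
  rw [e]
  refine limit_arg hw hh one_pos 0 fun n _ hn μ => ?_
  have hn0 : (0 : ℝ) < n := by exact_mod_cast hn
  have hsx : 0 < w / n := by positivity
  have hsy : 0 < h / n := by positivity
  have hW : w / (w / n) = (n : ℤ) := by push_cast; field_simp
  have hH : h / (h / n) = (n : ℤ) := by push_cast; field_simp
  have hpt := PK_pt hsx hsy hQ
  rw [hW, hH, Int.floor_intCast] at hpt
  set P := Prc92.PK (w / n) (h / n) Q with hP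
  have hm := win_mean μ P (Icc (0 : ℤ) n ×ˢ Icc (0 : ℤ) n)
  have hcard : ((Icc (0 : ℤ) n ×ˢ Icc (0 : ℤ) n).card : ℝ) = ((n : ℝ) + 1) ^ 2 := by
    rw [card_product, Int.card_Icc]
    have : ((n : ℤ) + 1 - 0).toNat = n + 1 := by omega
    rw [this]
    push_cast
    ring
  rw [hcard] at hm
  rw [mul_one, ← hm]
  refine le_trans (le_of_eq μ.one.symm) (μ.mono _ _ (Prc92.Bd.const _) ?_ fun z => ?_)
  · refine Prc92.Bd.sum _ fun d _ => ⟨1, fun z => ?_⟩
    by_cases hz : z + d ∈ P <;> simp [hz]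
  · obtain ⟨p, hp, p1, p2, p3, p4⟩ := hpt z.1 z.2
    have hd : p - z ∈ Icc (0 : ℤ) n ×ˢ Icc (0 : ℤ) n := by
      rw [mem_product, mem_Icc, mem_Icc]
      simp only [Prod.fst_sub, Prod.snd_sub]
      refine ⟨⟨by omega, by omega⟩, by omega, by omega⟩
    have hnn : ∀ d ∈ Icc (0 : ℤ) n ×ˢ Icc (0 : ℤ) n, (0 : ℝ) ≤ (if z + d ∈ P then (1 : ℝ) else 0) := by
      intro d _
      split_ifs <;> norm_num
    have := single_le_sum hnn hd
    rw [add_sub_cancel, if_pos hp] at this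
    exact this

end Prc24
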