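import Pool.Agent.Prc24c.Face
import Pool.Agent.Prc24.Trans
import Pool.Agent.Prc24.Count

/-!
# The number of good windows is bounded by pairs, faces and jumps
-/

namespace Prc24

open Finset Classical

variable {P : Set Z2} {K A B : ℤ} {m : ℕ}

lemma bd_ind (Q : Z2 → Prop) : Prc92.Bd (fun z => if Q z then (1 : ℝ) else 0) := by
  refine ⟨1, fun z => ?_⟩
  by_cases hq : Q z <;> simp [hq]

lemma bd_ite {Q : Z2 → Prop} {g : Z2 → ℝ} {C : ℝ} (hC : 0 ≤ C)
    (hg : ∀ z, Q z → |g z| ≤ C) : Prc92.Bd (fun z => if Q z then g z else 0) := by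
  refine ⟨C, fun z => ?_⟩
  by_cases hq : Q z
  · simp only [hq, if_true]
    exact hg z hq
  · simp only [hq, if_false, abs_zero]
    exact hC

lemma ind_mul (μ : Prc92.Mean) (Q : Z2 → Prop) (c : ℝ) :
    μ.M (fun z => if Q z then c else 0) = c * ind μ Q := by
  unfold ind
  rw [← μ.smul c _ (bd_ind Q)]
  congr 1
  funext z
  by_cases hq : Q z <;> simp [hq]

lemma card_UU (h : Prc P K A B m) : ((UU K A B).card : ℝ) = ((K : ℝ) - A) * (K - B) := by
  have h1 : ((UU K A B).card : ℤ) = (K - A) * (K - B) := by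
    unfold UU
    rw [card_product, Int.card_Icc, Int.card_Icc]
    push_cast
    have e1 : ((K - A + 1 - 1).toNat : ℤ) = K - A := by
      rw [Int.toNat_of_nonneg] <;> linarith [h.AK]
    have e2 : ((K - B + 1 - 1).toNat : ℤ) = K - B := by
      rw [Int.toNat_of_nonneg] <;> linarith [h.BK]
    rw [e1, e2]
  have h2 : (((UU K A B).card : ℤ) : ℝ) = (((K - A) * (K - B) : ℤ) : ℝ) := by rw [h1]
  push_cast at h2
  exact h2

lemma S_card_le (p u : Z2) : (S P K A B m p u).card ≤ m * m := by
  unfold S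
  refine (card_filter_le _ _).trans ?_
  rw [card_product, card_range]

lemma cost_le6 (z p : Z2) : cost P K A B m z p ≤ 6 := by
  unfold cost
  split_ifs <;> norm_num

lemma fc_le1 (z p : Z2) : fc P K A B m z p ≤ 1 := by
  unfold fc
  split_ifs <;> norm_num

lemma f_le_real (z : Z2) :
    (f P K A B m z : ℝ) ≤ ((m * K + A).toNat * (m * K + B).toNat : ℕ) := by
  have h1 : f P K A B m z ≤ (m * K + A).toNat * (m * K + B).toNat := by
    unfold f ct
    refine (card_filter_le _ _).trans ?_
    unfold bx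
    rw [card_product, Int.card_Ico, Int.card_Ico]
    have e1 : z.1 + (m * K + A) - z.1 = m * K + A := by ring
    have e2 : z.2 + (m * K + B) - z.2 = m * K + B := by ring
    rw [e1, e2]
  exact_mod_cast h1

/-- `m` times the density of good windows, counted from the points -/
lemma gd_points (μ : Prc92.Mean) (h : Prc P K A B m) :
    (m : ℝ) * ind μ (Gd P K A B m) =
      μ.M (fun p => if p ∈ P then ∑ u ∈ UU K A B, ((S P K A B m p u).card : ℝ) else 0) := by
  have h1 := trans μ h (g := fun _ _ => (1 : ℝ)) (C := 1) (fun _ _ => by simp)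
  have e1 : (fun p : Z2 => if p ∈ P then ∑ u ∈ UU K A B, ∑ _s ∈ S P K A B m p u, (1 : ℝ) else 0) =
      (fun p => if p ∈ P then ∑ u ∈ UU K A B, ((S P K A B m p u).card : ℝ) else 0) := by
    funext p
    simp
  have e2 : (fun z : Z2 => if Gd P K A B m z then ∑ _p ∈ ct P K A B m z, (1 : ℝ) else 0) =
      (fun z => if Gd P K A B m z then (m : ℝ) else 0) := by
    funext z
    by_cases hz : Gd P K A B m z
    · have hz' : (ct P K A B m z).card = m := hz
      simp [hz, hz']
    · simp [hz]
  rw [e1] at h1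
  rw [e2, ind_mul] at h1
  exact h1

private lemma bd_gen {g : Z2 → Z2 → ℝ} {C : ℝ} (hg : ∀ z p, |g z p| ≤ C) :
    Prc92.Bd (fun p : Z2 => if p ∈ P then ∑ u ∈ UU K A B, ∑ s ∈ S P K A B m p u,
        g (zz K p u s) p else 0) := by
  have hC : 0 ≤ C := (abs_nonneg _).trans (hg 0 0)
  refine bd_ite (C := (UU K A B).card * ((m * m : ℕ) * C)) (by positivity) fun p _ => ?_
  refine (abs_sum_le_sum_abs _ _).trans ?_
  have h1 : ∀ u ∈ UU K A B, |∑ s ∈ S P K A B m p u, g (zz K p u s) p| ≤ (m * m : ℕ) * C := by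
    intro u _
    refine (abs_sum_le_sum_abs _ _).trans ?_
    refine (sum_le_sum fun s _ => hg (zz K p u s) p).trans ?_
    rw [sum_const, nsmul_eq_mul]
    exact mul_le_mul_of_nonneg_right ((Nat.cast_le (α := ℝ)).2 (S_card_le p u)) hC
  refine (sum_le_sum h1).trans ?_
  rw [sum_const, nsmul_eq_mul]

theorem sum0 (μ : Prc92.Mean) (h : Prc P K A B m) :
    2 * ((m : ℝ) * ind μ (Gd P K A B m)) ≤ 2 * (((K : ℝ) - A) * (K - B) * ind μ (· ∈ P)) +
      μ.M (fun z => if Gd P K A B m z then ∑ p ∈ ct P K A B m z,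
        ((cost P K A B m z p : ℝ) - 2 * (fc P K A B m z p : ℝ)) else 0) := by
  have hg : ∀ z p, |(cost P K A B m z p : ℝ) - 2 * (fc P K A B m z p : ℝ)| ≤ 8 := by
    intro z p
    have h1 : (cost P K A B m z p : ℝ) ≤ 6 := by exact_mod_cast cost_le6 z p
    have h2 : (fc P K A B m z p : ℝ) ≤ 1 := by exact_mod_cast fc_le1 z p
    have h3 : (0 : ℝ) ≤ (cost P K A B m z p : ℝ) := Nat.cast_nonneg _
    have h4 : (0 : ℝ) ≤ (fc P K A B m z p : ℝ) := Nat.cast_nonneg _
    rw [abs_le]
    constructor <;> linarith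
  have ht := trans μ h (g := fun z p => (cost P K A B m z p : ℝ) - 2 * (fc P K A B m z p : ℝ)) (C := 8) hg
  have hb1 : Prc92.Bd (fun p : Z2 => if p ∈ P then ∑ u ∈ UU K A B, ((S P K A B m p u).card : ℝ) else 0) := by
    refine bd_ite (C := (UU K A B).card * (m * m : ℕ)) (by positivity) fun p _ => ?_
    rw [abs_of_nonneg (sum_nonneg fun _ _ => Nat.cast_nonneg _)]
    refine (sum_le_sum fun u _ => (Nat.cast_le (α := ℝ)).2 (S_card_le p u)).trans ?_
    rw [sum_const, nsmul_eq_mul]
  have hb2 := bd_gen (P := P) (K := K) (A := A) (B := B) (m := m) hg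
  have hb3 : Prc92.Bd (fun p : Z2 => if p ∈ P then ((UU K A B).card : ℝ) else 0) :=
    bd_ite (C := (UU K A B).card) (by positivity) fun p _ => by simp
  rw [ht, gd_points μ h, ← card_UU h, ← ind_mul, ← μ.smul 2 _ hb1, ← μ.smul 2 _ hb3,
    ← μ.add _ _ (hb3.smul 2) hb2]
  refine μ.mono _ _ (hb1.smul 2) ((hb3.smul 2).add hb2) fun p => ?_
  by_cases hp : p ∈ P
  · simp only [hp, if_true]
    rw [mul_sum, card_eq_sum_ones, Nat.cast_sum, mul_sum, ← sum_add_distrib]
    refine sum_le_sum fun u hu => ?_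
    have h3 := comb2 h hp hu
    have h4 : (((2 * (S P K A B m p u).card + 2 * ∑ s ∈ S P K A B m p u, fc P K A B m (zz K p u s) p : ℕ)) : ℝ) ≤
      ((2 + ∑ s ∈ S P K A B m p u, cost P K A B m (zz K p u s) p : ℕ) : ℝ) := by exact_mod_cast h3
    rw [sum_sub_distrib, ← mul_sum]
    push_cast at h4 ⊢
    linarith
  · simp [hp]

private lemma cap {Q : Z2 → Prop} {w : Z2} {M : Finset Z2} (hQ : (M.filter (fun p => GI P K A B m w p)).card ≤ m - 1)
    (hm : 1 ≤ m) (hz : Q w) (hQ2 : Q w → True) :
    ((M.filter (fun p => GI P K A B m w p)).card : ℝ) ≤ ((m : ℝ) - 1) * (if Gd P K A B m w then 1 else 0) := by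
  by_cases hg : Gd P K A B m w
  · rw [if_pos hg, mul_one]
    have : (((M.filter (fun p => GI P K A B m w p)).card : ℕ) : ℝ) ≤ ((m - 1 : ℕ) : ℝ) := by exact_mod_cast hQ
    rwa [Nat.cast_sub hm, Nat.cast_one] at this
  · rw [if_neg hg, mul_zero]
    have : (M.filter (fun p => GI P K A B m w p)) = ∅ := by
      apply filter_eq_empty_iff.2
      intro p _ hp
      exact hg hp.1
    rw [this]
    simp

lemma pt_bound (h : Prc P K A B m) (z : Z2) :
    (if Gd P K A B m z then ∑ p ∈ ct P K A B m z,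
        ((cost P K A B m z p : ℝ) - 2 * (fc P K A B m z p : ℝ)) else 0) ≤
      ((m : ℝ) - 1) * (eh P K A B m z + eh P K A B m (z.1 - K, z.2) + ev P K A B m z +
        ev P K A B m (z.1, z.2 - K)) +
      (if Gd P K A B m z then ((ju P K A B m z : ℝ) + jd P K A B m z) else 0) -
      2 * (fa P K A B m z * ((m : ℝ) - 2 + kk P K A B m z)) := by
  have hm : 1 ≤ m := le_trans (by norm_num) h.m2
  by_cases hz : Gd P K A B m z
  · rw [if_pos hz, if_pos hz]
    have e1 : (z.1 - K + K, z.2) = z := Prod.ext (by simp) rfl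
    have e2 : (z.1, z.2 - K + K) = z := Prod.ext rfl (by simp)
    have c1 := cap (Q := fun _ => True) (card_R h hz) hm trivial (fun _ => trivial)
    have c2 := cap (Q := fun _ => True) (card_L h hz) hm trivial (fun _ => trivial)
    have c3 := cap (Q := fun _ => True) (card_T h hz) hm trivial (fun _ => trivial)
    have c4 := cap (Q := fun _ => True) (card_B h hz) hm trivial (fun _ => trivial)
    have hcost : ∑ p ∈ ct P K A B m z, (cost P K A B m z p : ℝ) =
        ((ct P K A B m z).filter (fun p => GI P K A B m (z.1 + K, z.2) p)).card +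
        ((ct P K A B m z).filter (fun p => GI P K A B m (z.1 - K, z.2) p)).card +
        ((ct P K A B m z).filter (fun p => GI P K A B m (z.1, z.2 + K) p)).card +
        ((ct P K A B m z).filter (fun p => GI P K A B m (z.1, z.2 - K) p)).card +
        ju P K A B m z + jd P K A B m z := by
      unfold cost ju jd
      simp only [card_filter]
      push_cast
      simp only [sum_add_distrib]
    have hfc : fa P K A B m z * ((m : ℝ) - 2 + kk P K A B m z) ≤ ∑ p ∈ ct P K A B m z, (fc P K A B m z p : ℝ) := by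
      unfold fa
      by_cases hF : Fa P K A B m z
      · rw [if_pos hF, one_mul]
        have h5 := face_share h hF
        have h7 : (m : ℝ) - 2 + kk P K A B m z ≤ ((∑ p ∈ ct P K A B m z, fc P K A B m z p : ℕ) : ℝ) := by
          unfold kk
          by_cases hk : K1 P K A B m z
          · rw [if_pos hk] at h5 ⊢
            have h6 : m ≤ (∑ p ∈ ct P K A B m z, fc P K A B m z p) + 1 := by omega
            have : (m : ℝ) ≤ ((∑ p ∈ ct P K A B m z, fc P K A B m z p : ℕ) : ℝ) + 1 := by exact_mod_cast h6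
            linarith
          · rw [if_neg hk] at h5 ⊢
            have h6 : m ≤ (∑ p ∈ ct P K A B m z, fc P K A B m z p) + 2 := by omega
            have : (m : ℝ) ≤ ((∑ p ∈ ct P K A B m z, fc P K A B m z p : ℕ) : ℝ) + 2 := by exact_mod_cast h6
            linarith
        push_cast at h7
        exact h7
      · rw [if_neg hF, zero_mul]
        exact sum_nonneg fun _ _ => Nat.cast_nonneg _
    have g1 : (if Gd P K A B m (z.1 + K, z.2) then 1 else 0 : ℝ) = eh P K A B m z := by
      unfold eh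
      by_cases hg : Gd P K A B m (z.1 + K, z.2) <;> simp [hz, hg]
    have g2 : (if Gd P K A B m (z.1 - K, z.2) then 1 else 0 : ℝ) = eh P K A B m (z.1 - K, z.2) := by
      unfold eh
      simp only
      rw [e1]
      by_cases hg : Gd P K A B m (z.1 - K, z.2) <;> simp [hz, hg]
    have g3 : (if Gd P K A B m (z.1, z.2 + K) then 1 else 0 : ℝ) = ev P K A B m z := by
      unfold ev
      by_cases hg : Gd P K A B m (z.1, z.2 + K) <;> simp [hz, hg]
    have g4 : (if Gd P K A B m (z.1, z.2 - K) then 1 else 0 : ℝ) = ev P K A B m (z.1, z.2 - K) := by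
      unfold ev
      simp only
      rw [e2]
      by_cases hg : Gd P K A B m (z.1, z.2 - K) <;> simp [hz, hg]
    rw [g1] at c1
    rw [g2] at c2
    rw [g3] at c3
    rw [g4] at c4
    rw [sum_sub_distrib, ← mul_sum, hcost]
    nlinarith
  · rw [if_neg hz, if_neg hz]
    have hF : ¬ Fa P K A B m z := fun hF => hz hF.1
    have hf : fa P K A B m z = 0 := if_neg hF
    rw [hf]
    have hm1 : (0 : ℝ) ≤ (m : ℝ) - 1 := by
      have : (1 : ℝ) ≤ m := by exact_mod_cast hm
      linarith
    have n1 : 0 ≤ eh P K A B m z := by unfold eh; split_ifs <;> norm_num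
    have n2 : 0 ≤ eh P K A B m (z.1 - K, z.2) := by unfold eh; split_ifs <;> norm_num
    have n3 : 0 ≤ ev P K A B m z := by unfold ev; split_ifs <;> norm_num
    have n4 : 0 ≤ ev P K A B m (z.1, z.2 - K) := by unfold ev; split_ifs <;> norm_num
    have := mul_nonneg hm1 (add_nonneg (add_nonneg (add_nonneg n1 n2) n3) n4)
    linarith

end Prc24
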